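import Pool.Agent.H750R2.PLap.Gamma

set_option autoImplicit false

/-! A point of order `k` whose leading form is `x₋^k`: then `x₋` divides. -/

namespace Pool.Agent.H750R2.PLap

open MvPolynomial

/-- the one-variable contradiction -/
theorem alpha_ode (s : ℂ) (hs : s ≠ 0) (K a k : ℕ) (P R1 G : Polynomial ℂ) (κ : ℂ) (hκ : κ ≠ 0)
    (hk : k ≠ 0) (Q : Polynomial ℂ) (hQ : Q.eval 0 ≠ 0)
    (hP : P = Polynomial.C κ + Polynomial.X ^ (a + 2) * Q)
    (hR : (K : Polynomial ℂ) * (Polynomial.X * Polynomial.derivative P) +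
      ((a + 2 : ℕ) : Polynomial ℂ) * R1 = (((a + 2 : ℕ) : Polynomial ℂ) * (k : Polynomial ℂ)) * P)
    (hode : F2 (Polynomial.C s) (Polynomial.derivative P) R1
      (Polynomial.derivative (Polynomial.derivative P)) (Polynomial.derivative R1) G = 0) :
    False := by
  obtain ⟨Q1, hQ1⟩ : ∃ Q1, Q1 = ((a + 2 : ℕ) : Polynomial ℂ) * Q +
    Polynomial.X * Polynomial.derivative Q := ⟨_, rfl⟩
  have hP1 : Polynomial.derivative P = Polynomial.X ^ (a + 1) * Q1 := by
    rw [hP, hQ1, Polynomial.derivative_add, Polynomial.derivative_C, Polynomial.derivative_mul,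
      Polynomial.derivative_X_pow]
    simp only [Nat.add_succ_sub_one, map_natCast]
    push_cast
    ring
  have hP2 : Polynomial.derivative (Polynomial.derivative P) = Polynomial.X ^ a *
      (((a + 1 : ℕ) : Polynomial ℂ) * Q1 + Polynomial.X * Polynomial.derivative Q1) := by
    rw [hP1, Polynomial.derivative_mul, Polynomial.derivative_X_pow]
    simp only [Nat.add_succ_sub_one, map_natCast]
    rw [add_zero]
    push_cast
    ring
  have hQ10 : Q1.eval 0 = (a + 2) * Q.eval 0 := by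
    rw [hQ1]; simp
  have ha2 : ((a : ℂ) + 2) ≠ 0 := by
    exact_mod_cast (show (a + 2 : ℕ) ≠ 0 by omega)
  have ha1 : ((a : ℂ) + 1) ≠ 0 := by
    exact_mod_cast (show (a + 1 : ℕ) ≠ 0 by omega)
  have hR0 : R1.eval 0 = k * κ := by
    have h1 := congrArg (Polynomial.eval 0) hR
    simp only [Polynomial.eval_add, Polynomial.eval_mul, Polynomial.eval_X, zero_mul, mul_zero,
      zero_add, Polynomial.eval_natCast, hP, Polynomial.eval_C, Polynomial.eval_pow] at h1
    rw [zero_pow (by omega)] at h1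
    push_cast at h1
    apply mul_left_cancel₀ ha2
    linear_combination h1
  -- derivative of R1
  have hR1 : ((a + 2 : ℕ) : Polynomial ℂ) * Polynomial.derivative R1 = Polynomial.X ^ (a + 1) *
      ((((a + 2 : ℕ) : Polynomial ℂ) * (k : Polynomial ℂ) - (K : Polynomial ℂ)) * Q1 -
        (K : Polynomial ℂ) *
        (((a + 1 : ℕ) : Polynomial ℂ) * Q1 + Polynomial.X * Polynomial.derivative Q1)) := by
    have h1 := congrArg Polynomial.derivative hR
    simp only [Polynomial.derivative_add, Polynomial.derivative_mul, Polynomial.derivative_natCast,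
      Polynomial.derivative_X, zero_mul, zero_add, one_mul] at h1
    rw [hP2, hP1] at h1
    linear_combination h1
  unfold F2 at hode
  have h2 : Polynomial.X ^ a * ((16 * (1 + Polynomial.C s)) * Polynomial.X * (Q1 * R1 *
      (Polynomial.X ^ (a + 1) *
      ((((a + 2 : ℕ) : Polynomial ℂ) * (k : Polynomial ℂ) - (K : Polynomial ℂ)) * Q1 -
        (K : Polynomial ℂ) *
        (((a + 1 : ℕ) : Polynomial ℂ) * Q1 + Polynomial.X * Polynomial.derivative Q1)))) +
      ((a + 2 : ℕ) : Polynomial ℂ) * (8 * Polynomial.C s * (R1 ^ 2 *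
      (((a + 1 : ℕ) : Polynomial ℂ) * Q1 + Polynomial.X * Polynomial.derivative Q1) +
        Polynomial.X ^ (a + 2) * Q1 ^ 2 * G))) = 0 := by
    rw [hP2, hP1] at hode
    linear_combination ((a + 2 : ℕ) : Polynomial ℂ) * hode - 16 * (1 + Polynomial.C s) *
      (Polynomial.X ^ (a + 1) * Q1 * R1) * hR1
  have h3 := (mul_eq_zero.1 h2).resolve_left (pow_ne_zero _ Polynomial.X_ne_zero)
  have h4 := congrArg (Polynomial.eval 0) h3
  simp only [Polynomial.eval_add, Polynomial.eval_mul, Polynomial.eval_X, zero_mul, mul_zero,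
    zero_add, add_zero, Polynomial.eval_natCast, Polynomial.eval_C, Polynomial.eval_pow,
    Polynomial.eval_ofNat, Polynomial.eval_zero, hR0, hQ10] at h4
  rw [zero_pow (by omega)] at h4
  push_cast at h4
  simp only [zero_mul, add_zero] at h4
  have h5 : ((a : ℂ) + 2) * (8 * s * ((k * κ) ^ 2 * ((a + 1) * ((a + 2) * Q.eval 0)))) ≠ 0 := by
    have hkC : (k : ℂ) ≠ 0 := by exact_mod_cast hk
    refine mul_ne_zero ha2 (mul_ne_zero (mul_ne_zero (by norm_num) hs) (mul_ne_zero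
      (pow_ne_zero _ (mul_ne_zero hkC hκ)) (mul_ne_zero ha1 (mul_ne_zero ha2 hQ))))
  exact h5 h4

theorem alpha_min (k : ℕ) (hk : 1 ≤ k) (S : Finset (Fin 3 →₀ ℕ))
    (hmin : ∀ e ∈ S, k ≤ e 0 + e 2) (hline : ∀ e ∈ S, e 0 + e 2 = k → e 0 = 0)
    (hbad : ∃ e ∈ S, e 2 = 0) :
    ∃ c ∈ S, c 2 < k ∧ 2 ≤ c 0 ∧ (∀ e ∈ S, c 0 * k ≤ (k - c 2) * e 0 + c 0 * e 2) ∧
      (∀ e ∈ S, (k - c 2) * e 0 + c 0 * e 2 = c 0 * k → e 0 = 0 ∨ c 0 ≤ e 0) := by
  obtain ⟨b, hb, hb2⟩ := hbad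
  have hb0 : 1 ≤ b 0 := by have := hmin b hb; omega
  obtain ⟨f, hf⟩ : ∃ f : (Fin 3 →₀ ℕ) → ℚ, f = fun e => ((e 2 : ℚ) - k) / (e 0) := ⟨_, rfl⟩
  have hne : (S.filter (fun e => 1 ≤ e 0)).Nonempty := ⟨b, Finset.mem_filter.2 ⟨hb, hb0⟩⟩
  obtain ⟨e₁, he₁, hmin₁⟩ := Finset.exists_min_image _ f hne
  have hne2 : ((S.filter (fun e => 1 ≤ e 0)).filter (fun e => f e = f e₁)).Nonempty :=
    ⟨e₁, Finset.mem_filter.2 ⟨he₁, rfl⟩⟩
  obtain ⟨c, hc, hmin₂⟩ := Finset.exists_min_image _ (fun e => e 0) hne2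
  obtain ⟨hc1, hc2⟩ := Finset.mem_filter.1 hc
  obtain ⟨hcS, hc0⟩ := Finset.mem_filter.1 hc1
  have hfb : f b < 0 := by
    rw [hf]
    simp only [hb2, Nat.cast_zero, zero_sub]
    have h1 : (0 : ℚ) < k := by exact_mod_cast hk
    have h2 : (0 : ℚ) < b 0 := by exact_mod_cast hb0
    rw [neg_div]
    exact neg_neg_of_pos (div_pos h1 h2)
  have hfc : f c < 0 := by
    rw [hc2]
    exact lt_of_le_of_lt (hmin₁ b (Finset.mem_filter.2 ⟨hb, hb0⟩)) hfb
  have hc0' : (0 : ℚ) < c 0 := by exact_mod_cast hc0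
  have hck : c 2 < k := by
    rw [hf] at hfc
    have h1 : ((c 2 : ℚ) - k) < 0 := by
      by_contra h
      exact absurd hfc (not_lt.2 (div_nonneg (not_lt.1 h) hc0'.le))
    have h2 : (c 2 : ℚ) < k := by linarith
    exact_mod_cast h2
  have hsum : k < c 0 + c 2 := by
    have h1 := hmin c hcS
    rcases Nat.lt_or_ge k (c 0 + c 2) with h | h
    · exact h
    · have := hline c hcS (by omega)
      omega
  have hKc : ((k - c 2 : ℕ) : ℚ) = (k : ℚ) - c 2 := by
    rw [Nat.cast_sub hck.le]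
  have hcmp : ∀ e ∈ S, 1 ≤ e 0 → (c 0 : ℚ) * k ≤ ((k - c 2 : ℕ) : ℚ) * e 0 + c 0 * e 2 := by
    intro e he he0
    have h1 : f c ≤ f e := by
      rw [hc2]
      exact hmin₁ e (Finset.mem_filter.2 ⟨he, he0⟩)
    have he0' : (0 : ℚ) < e 0 := by exact_mod_cast he0
    rw [hf] at h1
    simp only at h1
    rw [div_le_div_iff₀ hc0' he0'] at h1
    rw [hKc]
    linarith
  refine ⟨c, hcS, hck, by omega, ?_, ?_⟩
  · intro e he
    rcases Nat.eq_zero_or_pos (e 0) with h | h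
    · have h1 := hmin e he
      rw [h, mul_zero, zero_add]
      exact Nat.mul_le_mul_left _ (by omega)
    · have := hcmp e he h
      exact_mod_cast this
  · intro e he heq
    rcases Nat.eq_zero_or_pos (e 0) with h | h
    · exact Or.inl h
    · right
      have he0' : (0 : ℚ) < e 0 := by exact_mod_cast h
      have hq : ((k - c 2 : ℕ) : ℚ) * e 0 + c 0 * e 2 = c 0 * k := by exact_mod_cast heq
      have h1 : f e = f e₁ := by
        rw [← hc2, hf]
        simp only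
        rw [div_eq_div_iff he0'.ne' hc0'.ne']
        rw [hKc] at hq
        linarith
      exact hmin₂ e (Finset.mem_filter.2 ⟨Finset.mem_filter.2 ⟨he, h⟩, h1⟩)

theorem alpha (s : ℂ) (hs : s ≠ 0) (m k : ℕ) (hk : 1 ≤ k) (U : P3) (hom : U.IsHomogeneous m)
    (hU : T s U = 0) (hmin : ∀ e ∈ U.support, k ≤ e 0 + e 2)
    (hline : ∀ e ∈ U.support, e 0 + e 2 = k → e 0 = 0)
    (hex : ∃ e ∈ U.support, e 0 + e 2 = k) : ∀ e ∈ U.support, e 2 ≠ 0 := by
  intro b hb hb2
  obtain ⟨c, hcS, hck, hc0, hle, heq⟩ := alpha_min k hk U.support hmin hline ⟨b, hb, hb2⟩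
  obtain ⟨w, hw⟩ : ∃ w : Fin 3 → ℕ, w = ![k - c 2, 0, c 0] := ⟨_, rfl⟩
  have w0 : w 0 = k - c 2 := by rw [hw]; rfl
  have w1 : w 1 = 0 := by rw [hw]; rfl
  have w2 : w 2 = c 0 := by rw [hw]; rfl
  have hwt : ∀ e, wt w e = (k - c 2) * e 0 + c 0 * e 2 := by
    intro e; unfold wt; rw [w0, w1, w2]; ring
  obtain ⟨V, hVdef⟩ : ∃ V, V = low w (c 0 * k) U := ⟨_, rfl⟩
  have hV := lim_pos s w ((k - c 2) + c 0) (by rw [w0, w1, w2]; omega) (by omega) U hU (c 0 * k)
    (fun e he => by rw [hwt]; exact hle e he)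
  rw [← hVdef] at hV
  have hmem : ∀ e, e ∈ V.support ↔ e ∈ U.support ∧ (k - c 2) * e 0 + c 0 * e 2 = c 0 * k := by
    intro e
    rw [hVdef, mem_low, hwt]
  have hinj : ∀ e ∈ V.support, ∀ t ∈ V.support, t 0 = e 0 → t = e := by
    intro e he t ht hte
    rw [hmem] at ht he
    have h1 := hom_deg hom ht.1
    have h2 := hom_deg hom he.1
    have h3 : c 0 * t 2 = c 0 * e 2 := by
      have h4 := ht.2
      have h5 := he.2
      rw [hte] at h4
      omega
    have h6 : t 2 = e 2 := Nat.eq_of_mul_eq_mul_left (by omega) h3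
    exact ext3 hte (by omega) h6
  have hco := co_ev 0 V hinj
  obtain ⟨e₀, he₀, he₀k⟩ := hex
  have he₀0 := hline e₀ he₀ he₀k
  have he₀V : e₀ ∈ V.support := by
    rw [hmem, he₀0]
    refine ⟨he₀, ?_⟩
    have : e₀ 2 = k := by omega
    rw [this, mul_zero, zero_add]
  have hcV : c ∈ V.support := by
    rw [hmem]
    refine ⟨hcS, ?_⟩
    have : (k - c 2) + c 2 = k := by omega
    calc (k - c 2) * c 0 + c 0 * c 2 = c 0 * ((k - c 2) + c 2) := by ring
      _ = c 0 * k := by rw [this]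
  obtain ⟨a, ha⟩ : ∃ a, c 0 = a + 2 := ⟨c 0 - 2, by omega⟩
  have hP0 : (ev 0 V).coeff 0 ≠ 0 := by
    have := hco e₀ he₀V
    rw [he₀0] at this
    rw [this]
    exact mem_support_iff.mp he₀V
  have hPc : (ev 0 V).coeff (a + 2) ≠ 0 := by
    have := hco c hcV
    rw [ha] at this
    rw [this]
    exact mem_support_iff.mp hcV
  have hPmid : ∀ d, 0 < d → d < a + 2 → (ev 0 V).coeff d = 0 := by
    intro d hd0 hd
    rw [coeff_ev]
    apply Finset.sum_eq_zero
    intro e he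
    rw [if_neg]
    intro h
    rw [hmem] at he
    have := heq e he.1 he.2
    omega
  have hdvd : (Polynomial.X ^ (a + 2) : Polynomial ℂ) ∣ ev 0 V - Polynomial.C ((ev 0 V).coeff 0) := by
    rw [Polynomial.X_pow_dvd_iff]
    intro d hd
    rw [Polynomial.coeff_sub, Polynomial.coeff_C]
    rcases Nat.eq_zero_or_pos d with h | h
    · subst h; simp
    · rw [hPmid d h hd, if_neg (by omega), sub_zero]
  obtain ⟨Q, hQ⟩ := hdvd
  have hP : ev 0 V = Polynomial.C ((ev 0 V).coeff 0) + Polynomial.X ^ (a + 2) * Q := by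
    rw [← hQ]; ring
  have hQ0 : Q.eval 0 ≠ 0 := by
    rw [← Polynomial.coeff_zero_eq_eval_zero]
    have h1 : (Polynomial.X ^ (a + 2) * Q).coeff (a + 2) = Q.coeff 0 := by
      rw [Polynomial.coeff_X_pow_mul', if_pos le_rfl, Nat.sub_self]
    rw [← h1, ← hQ, Polynomial.coeff_sub, Polynomial.coeff_C, if_neg (by omega), sub_zero]
    exact hPc
  have hR := (jets0 _ _ _ _ hVdef 0).1
  rw [w0, w1, w2, ← deriv_ev, ha, Nat.cast_mul, Nat.cast_zero, zero_mul, add_zero] at hR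
  have hode := congrArg (ev 0) hV
  unfold F2 at hode
  simp only [map_add, map_mul, map_pow, map_ofNat, map_one, map_zero, ev_C, ← deriv_ev] at hode
  exact alpha_ode s hs (k - c 2) a k (ev 0 V) (ev 0 (pderiv 2 V)) (ev 0 (pderiv 2 (pderiv 2 V)))
    _ hP0 (by omega) Q hQ0 hP hR (by unfold F2; exact hode)

end Pool.Agent.H750R2.PLap
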