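import Mathlib

set_option autoImplicit false

/-! Null-coordinate form of the p-Laplace identity in three variables. -/

namespace Pool.Agent.H750R2.PLap

open MvPolynomial

/-- polynomials in three variables: `X 0 = x₊`, `X 1 = x₀`, `X 2 = x₋` -/
abbrev P3 := MvPolynomial (Fin 3) ℂ

/-- chain rule for a substitution -/
theorem pderiv_aeval {n : ℕ} (f : Fin n → MvPolynomial (Fin n) ℂ) (U : MvPolynomial (Fin n) ℂ)
    (j : Fin n) :
    pderiv j (aeval f U) = ∑ i, aeval f (pderiv i U) * pderiv j (f i) := by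
  induction U using MvPolynomial.induction_on with
  | C a => simp [aeval_C, MvPolynomial.algebraMap_eq]
  | add p q hp hq => simp only [map_add, hp, hq, add_mul, Finset.sum_add_distrib]
  | mul_X p k hp =>
    rw [map_mul, pderiv_mul, hp, aeval_X]
    have h : ∀ i, aeval f (pderiv i (p * X k)) * pderiv j (f i) =
        aeval f (pderiv i p) * pderiv j (f i) * f k +
          (if i = k then aeval f p * pderiv j (f k) else 0) := by
      intro i
      rw [pderiv_mul, pderiv_X]
      by_cases hik : i = k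
      · subst hik
        simp only [Pi.single_eq_same, mul_one, map_add, map_mul, aeval_X, if_true]
        ring
      · simp only [map_add, map_mul, aeval_X, if_neg hik]
        rw [Pi.single_eq_of_ne (fun h => hik h.symm)]
        simp only [map_zero, mul_zero, add_zero]
        ring
    simp_rw [h]
    rw [Finset.sum_add_distrib, Finset.sum_ite_eq', if_pos (Finset.mem_univ k), ← Finset.sum_mul]

theorem pderiv_comm {n : ℕ} (i j : Fin n) (U : MvPolynomial (Fin n) ℂ) :
    pderiv i (pderiv j U) = pderiv j (pderiv i U) := by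
  induction U using MvPolynomial.induction_on with
  | C a => simp
  | add p q hp hq => simp only [map_add, hp, hq]
  | mul_X p k hp =>
    simp only [pderiv_mul, map_add, pderiv_X, hp]
    have h1 : ∀ a b : Fin n, pderiv a (Pi.single (M := fun _ => MvPolynomial (Fin n) ℂ) b 1 k) = 0 := by
      intro a b
      by_cases h : k = b
      · subst h; simp
      · rw [Pi.single_eq_of_ne h]; simp
    rw [h1, h1]
    ring

/-- The null form of the p-Laplace operator as a function of the first and second derivatives. -/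
def F {R : Type*} [CommRing R] (s p q r A B C D E G : R) : R :=
  (q ^ 2 + 4 * (p * r)) * (D + 4 * C) +
    2 * s * (q ^ 2 * D + 4 * (r ^ 2 * A) + 4 * (p ^ 2 * G) + 4 * (q * r * B) + 4 * (q * p * E) +
      8 * (p * r * C))

/-- `T s U`: the null p-Laplace expression of `U`. -/
noncomputable def T (s : ℂ) (U : P3) : P3 :=
  F (MvPolynomial.C s) (pderiv 0 U) (pderiv 1 U) (pderiv 2 U) (pderiv 0 (pderiv 0 U))
    (pderiv 0 (pderiv 1 U)) (pderiv 0 (pderiv 2 U)) (pderiv 1 (pderiv 1 U))
    (pderiv 1 (pderiv 2 U)) (pderiv 2 (pderiv 2 U))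

/-- `|∇U|²` in null coordinates -/
noncomputable def Qf (U : P3) : P3 := pderiv 1 U ^ 2 + 4 * (pderiv 0 U * pderiv 2 U)

/-- the unipotent move -/
noncomputable def mv (a : ℂ) : P3 →ₐ[ℂ] P3 :=
  aeval ![X 0 - C (2 * a) * X 1 - C (a ^ 2) * X 2, X 1 + C a * X 2, X 2]

/-- the swap -/
noncomputable def sw : P3 →ₐ[ℂ] P3 := aeval ![X 2, X 1, X 0]

theorem pd0_mv (a : ℂ) (U : P3) : pderiv 0 (mv a U) = mv a (pderiv 0 U) := by
  unfold mv
  rw [pderiv_aeval, Fin.sum_univ_three]
  simp [pderiv_X, Pi.single_apply, pderiv_mul]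

theorem pd1_mv (a : ℂ) (U : P3) :
    pderiv 1 (mv a U) = mv a (pderiv 1 U) - C (2 * a) * mv a (pderiv 0 U) := by
  unfold mv
  rw [pderiv_aeval, Fin.sum_univ_three]
  simp [pderiv_X, Pi.single_apply, pderiv_mul]
  ring

theorem pd2_mv (a : ℂ) (U : P3) :
    pderiv 2 (mv a U) = mv a (pderiv 2 U) + C a * mv a (pderiv 1 U) -
      C (a ^ 2) * mv a (pderiv 0 U) := by
  unfold mv
  rw [pderiv_aeval, Fin.sum_univ_three]
  simp [pderiv_X, Pi.single_apply, pderiv_mul]
  ring

theorem pd0_sw (U : P3) : pderiv 0 (sw U) = sw (pderiv 2 U) := by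
  unfold sw
  rw [pderiv_aeval, Fin.sum_univ_three]
  simp [pderiv_X, Pi.single_apply]

theorem pd1_sw (U : P3) : pderiv 1 (sw U) = sw (pderiv 1 U) := by
  unfold sw
  rw [pderiv_aeval, Fin.sum_univ_three]
  simp [pderiv_X, Pi.single_apply]

theorem pd2_sw (U : P3) : pderiv 2 (sw U) = sw (pderiv 0 U) := by
  unfold sw
  rw [pderiv_aeval, Fin.sum_univ_three]
  simp [pderiv_X, Pi.single_apply]

theorem Qf_mv (a : ℂ) (U : P3) : Qf (mv a U) = mv a (Qf U) := by
  unfold Qf
  rw [pd0_mv, pd1_mv, pd2_mv]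
  simp only [map_add, map_mul, map_pow, map_ofNat]
  ring

theorem Qf_sw (U : P3) : Qf (sw U) = sw (Qf U) := by
  unfold Qf
  rw [pd0_sw, pd1_sw, pd2_sw]
  simp only [map_add, map_mul, map_pow, map_ofNat]
  ring

theorem T_mv (s a : ℂ) (U : P3) : T s (mv a U) = mv a (T s U) := by
  have hC : mv a (C s) = C s := by simp [mv, MvPolynomial.algebraMap_eq]
  unfold T F
  simp only [pd0_mv, pd1_mv, pd2_mv, map_sub, map_add, pderiv_C_mul]
  simp only [map_mul, map_pow, map_ofNat, map_add, hC]
  rw [pderiv_comm 1 0 U, pderiv_comm 2 0 U, pderiv_comm 2 1 U]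
  ring

theorem T_sw (s : ℂ) (U : P3) : T s (sw U) = sw (T s U) := by
  have hC : sw (C s) = C s := by simp [sw, MvPolynomial.algebraMap_eq]
  unfold T F
  simp only [pd0_sw, pd1_sw, pd2_sw, map_add, map_sub, map_mul, map_pow, map_ofNat, hC]
  rw [pderiv_comm 2 0 U, pderiv_comm 2 1 U, pderiv_comm 1 0 U]
  ring

theorem mv_mv (a : ℂ) (U : P3) : mv (-a) (mv a U) = U := by
  have : (mv (-a)).comp (mv a) = AlgHom.id ℂ P3 := by
    apply MvPolynomial.algHom_ext
    intro i
    fin_cases i
    · simp only [mv, AlgHom.comp_apply, aeval_X, AlgHom.id_apply, Matrix.cons_val_zero,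
        Fin.zero_eta, map_sub, map_mul, map_neg, map_pow, map_ofNat, Matrix.cons_val_one,
        Matrix.cons_val, aeval_C, MvPolynomial.algebraMap_eq, neg_sq]
      ring
    · simp [mv, MvPolynomial.algebraMap_eq]
    · simp [mv]
  exact DFunLike.congr_fun this U

theorem sw_sw (U : P3) : sw (sw U) = U := by
  have : sw.comp sw = AlgHom.id ℂ P3 := by
    apply MvPolynomial.algHom_ext
    intro i
    fin_cases i <;> simp [sw]
  exact DFunLike.congr_fun this U

theorem mv_inj (a : ℂ) {U : P3} (h : U ≠ 0) : mv a U ≠ 0 := by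
  intro h0
  apply h
  rw [← mv_mv a U, h0, map_zero]

theorem sw_inj {U : P3} (h : U ≠ 0) : sw U ≠ 0 := by
  intro h0
  apply h
  rw [← sw_sw U, h0, map_zero]

theorem hom_mv (a : ℂ) {U : P3} {m : ℕ} (h : U.IsHomogeneous m) : (mv a U).IsHomogeneous m := by
  have h0 : (X 0 : P3).IsHomogeneous 1 := isHomogeneous_X _ _
  have h1 : (X 1 : P3).IsHomogeneous 1 := isHomogeneous_X _ _
  have h2 : (X 2 : P3).IsHomogeneous 1 := isHomogeneous_X _ _
  have hc : ∀ (c : ℂ) (i : Fin 3), (C c * X i : P3).IsHomogeneous 1 := by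
    intro c i
    have := (isHomogeneous_C (Fin 3) c).mul (isHomogeneous_X ℂ i)
    rwa [zero_add] at this
  have key : ∀ i, ((![X 0 - C (2 * a) * X 1 - C (a ^ 2) * X 2, X 1 + C a * X 2, X 2] :
      Fin 3 → P3) i).IsHomogeneous 1 := by
    intro i
    fin_cases i
    · exact (h0.sub (hc _ 1)).sub (hc _ 2)
    · exact h1.add (hc _ 2)
    · exact h2
  have := h.aeval _ key
  rw [one_mul] at this
  exact this

theorem hom_sw {U : P3} {m : ℕ} (h : U.IsHomogeneous m) : (sw U).IsHomogeneous m := by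
  have h0 : (X 0 : P3).IsHomogeneous 1 := isHomogeneous_X _ _
  have h1 : (X 1 : P3).IsHomogeneous 1 := isHomogeneous_X _ _
  have h2 : (X 2 : P3).IsHomogeneous 1 := isHomogeneous_X _ _
  have key : ∀ i, ((![X 2, X 1, X 0] : Fin 3 → P3) i).IsHomogeneous 1 := by
    intro i
    fin_cases i
    · exact h2
    · exact h1
    · exact h0
  have := h.aeval _ key
  rw [one_mul] at this
  exact this

end Pool.Agent.H750R2.PLap
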