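import Mathlib

set_option autoImplicit false

/-! Quasi-homogeneous solutions of the two-dimensional null p-Laplace equation. -/

namespace Pool.Agent.H750R2.PLap

open Polynomial

/-- the leading null form (two-dimensional part) -/
def F2 {R : Type*} [CommRing R] (s p r A C G : R) : R :=
  16 * (1 + s) * (p * r * C) + 8 * s * (r ^ 2 * A + p ^ 2 * G)

theorem key_ineq (s : ℝ) (hs : -(1 / 2) < s) (k r : ℕ) (hr : 1 ≤ r) (hrk : r + 1 ≤ k) :
    (2 * (1 + 2 * s) * (r * (k - r)) - s * k : ℝ) ≠ 0 := by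
  have hr' : (1 : ℝ) ≤ r := by exact_mod_cast hr
  have hk' : (r : ℝ) + 1 ≤ k := by exact_mod_cast hrk
  have h1 : (0 : ℝ) ≤ (r - 1) * (k - r - 1) := mul_nonneg (by linarith) (by linarith)
  have h2 : (k : ℝ) - 1 ≤ r * (k - r) := by nlinarith
  have h3 : 0 < 1 + 2 * s := by linarith
  have h4 := mul_le_mul_of_nonneg_left h2 h3.le
  have h5 : (2 : ℝ) ≤ k := by linarith
  have : 0 < 2 * (1 + 2 * s) * (r * (k - r)) - s * k := by nlinarith
  exact this.ne'

/-- root data of a polynomial at a point -/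
theorem root_data (p : ℂ[X]) (hp : p ≠ 0) (t : ℂ) :
    ∃ (j : ℕ) (h : ℂ[X]), p = (X - C t) ^ j * h ∧ h.eval t ≠ 0 := by
  obtain ⟨q, hq, hnd⟩ := exists_eq_pow_rootMultiplicity_mul_and_not_dvd p hp t
  refine ⟨p.rootMultiplicity t, q, hq, ?_⟩
  intro h0
  exact hnd (dvd_iff_isRoot.2 h0)

theorem d1 (y h : ℂ[X]) (hy : derivative y = 1) (j : ℕ) :
    y * derivative (y ^ j * h) = y ^ j * (C (j : ℂ) * h + y * derivative h) := by
  rw [derivative_mul, derivative_pow, hy]
  rcases j with _ | j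
  · simp
  · rw [Nat.add_sub_cancel, pow_succ]
    simp only [Nat.cast_add, Nat.cast_one, map_natCast, map_add, map_one]
    ring

theorem d2 (y h : ℂ[X]) (hy : derivative y = 1) (j : ℕ) :
    y ^ 2 * derivative (derivative (y ^ j * h)) =
      y ^ j * (C ((j : ℂ) * (j - 1)) * h + C (2 * (j : ℂ)) * y * derivative h +
        y ^ 2 * derivative (derivative h)) := by
  rcases j with _ | j
  · simp
  · have e : derivative (y ^ (j + 1) * h) = y ^ j * (C ((j : ℂ) + 1) * h + y * derivative h) := by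
      rw [derivative_mul, derivative_pow, hy, Nat.add_sub_cancel, pow_succ]
      simp only [Nat.cast_add, Nat.cast_one, map_natCast, map_add, map_one]
      ring
    rw [e]
    have := d1 y (C ((j : ℂ) + 1) * h + y * derivative h) hy j
    rw [pow_two, mul_assoc, this, derivative_add, derivative_mul, derivative_mul, derivative_C, hy]
    simp only [Nat.cast_add, Nat.cast_one, map_natCast, map_add, map_one, map_mul, map_sub,
      map_ofNat]
    ring

theorem alg1 {R : Type*} [CommRing R] (s k k1 kk c2 x P P1 P2 y Y h u : R) (h1 : P1 = Y * h)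
    (h2 : y * P2 = Y * u) :
    y * F2 s (k * P - x * P1) P1 (kk * P - c2 * (x * P1) + x ^ 2 * P2) (k1 * P1 - x * P2) P2 =
      Y * (16 * (1 + s) * ((k * P - x * P1) * h * (k1 * (y * P1) - x * (Y * u))) +
        8 * s * (h * P1 * (kk * (y * P) - c2 * (x * (y * P1)) + x ^ 2 * (Y * u)) +
          (k * P - x * P1) ^ 2 * u)) := by
  unfold F2
  subst h1
  linear_combination (16 * (1 + s) * ((k * P - x * (Y * h)) * (Y * h) * (-x)) +
    8 * s * ((Y * h) ^ 2 * x ^ 2 + (k * P - x * (Y * h)) ^ 2)) * h2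

theorem alg2 {R : Type*} [CommRing R] (s k k1 kk c2 x P P1 P2 y Y g a b : R) (h0 : P = Y * g)
    (h1 : y * P1 = Y * a) (h2 : y ^ 2 * P2 = Y * b) :
    y ^ 4 * F2 s (k * P - x * P1) P1 (kk * P - c2 * (x * P1) + x ^ 2 * P2) (k1 * P1 - x * P2) P2 =
      Y ^ 3 * (16 * (1 + s) * ((k * y * g - x * a) * a * (k1 * y * a - x * b)) +
        8 * s * (a ^ 2 * (kk * y ^ 2 * g - c2 * x * y * a + x ^ 2 * b) +
          (k * y * g - x * a) ^ 2 * b)) := by
  have e : y ^ 4 * F2 s (k * P - x * P1) P1 (kk * P - c2 * (x * P1) + x ^ 2 * P2)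
      (k1 * P1 - x * P2) P2 =
      16 * (1 + s) * ((k * y * P - x * (y * P1)) * (y * P1) * (k1 * y * (y * P1) - x * (y ^ 2 * P2))) +
        8 * s * ((y * P1) ^ 2 * (kk * y ^ 2 * P - c2 * x * y * (y * P1) + x ^ 2 * (y ^ 2 * P2)) +
          (k * y * P - x * (y * P1)) ^ 2 * (y ^ 2 * P2)) := by
    unfold F2; ring
  rw [e, h1, h2, h0]
  ring

theorem cubic_zero (c1 c2 c3 : ℂ) (h : ∀ y : ℂ, c1 * y + c2 * y ^ 2 + c3 * y ^ 3 = 0) :
    c1 = 0 ∧ c2 = 0 ∧ c3 = 0 := by
  have h1 := h 1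
  have h2 := h (-1)
  have h3 := h 2
  refine ⟨?_, ?_, ?_⟩
  · linear_combination (1 : ℂ) * h1 - (1 / 3 : ℂ) * h2 - (1 / 6 : ℂ) * h3
  · linear_combination (1 / 2 : ℂ) * h1 + (1 / 2 : ℂ) * h2
  · linear_combination (-1 / 2 : ℂ) * h1 - (1 / 6 : ℂ) * h2 + (1 / 6 : ℂ) * h3

theorem twoD (s : ℝ) (hs : -(1 / 2) < s) (hs0 : s ≠ 0) (k : ℕ) (hk : 2 ≤ k) (p : ℂ[X])
    (hdeg : p.natDegree ≤ k)
    (hode : F2 (C (s : ℂ)) (C (k : ℂ) * p - X * derivative p) (derivative p)
      (C ((k : ℂ) * (k - 1)) * p - C (2 * ((k : ℂ) - 1)) * (X * derivative p) +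
        X ^ 2 * derivative (derivative p))
      (C ((k : ℂ) - 1) * derivative p - X * derivative (derivative p))
      (derivative (derivative p)) = 0) :
    (∃ b, p = C b) ∨ ∃ a, p = C a * X ^ k := by
  have hsC : (s : ℂ) ≠ 0 := by exact_mod_cast hs0
  have h24 : (1 + 2 * (s : ℂ)) ≠ 0 := by
    have : (1 + 2 * s : ℝ) ≠ 0 := by
      have : 0 < 1 + 2 * s := by linarith
      exact this.ne'
    exact_mod_cast this
  have hkC : (k : ℂ) ≠ 0 := by
    have : k ≠ 0 := by omega
    exact_mod_cast this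
  by_cases hp' : derivative p = 0
  · left
    have := derivative_eq_zero.1 hp'
    exact ⟨_, eq_C_of_natDegree_eq_zero this⟩
  right
  have hp0 : p ≠ 0 := by rintro rfl; simp at hp'
  -- nonzero roots of p' do not exist
  have hroot : ∀ t : ℂ, t ≠ 0 → (derivative p).eval t ≠ 0 := by
    intro t ht hpt
    obtain ⟨y, hy⟩ : ∃ y : ℂ[X], y = X - C t := ⟨_, rfl⟩
    have hdy : derivative y = 1 := by simp [hy]
    have hyt : y.eval t = 0 := by simp [hy]
    have hy0 : y ≠ 0 := by rw [hy]; exact X_sub_C_ne_zero t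
    -- first: p(t) = 0
    have hpt0 : p.eval t = 0 := by
      obtain ⟨j, h, hjh, hh⟩ := root_data (derivative p) hp' t
      rw [← hy] at hjh
      have hj : j ≠ 0 := by
        rintro rfl
        rw [hjh] at hpt
        simp at hpt
        exact hh hpt
      have e2 : y * derivative (derivative p) = y ^ j * (C (j : ℂ) * h + y * derivative h) := by
        conv_lhs => rw [hjh]
        exact d1 y h hdy j
      have e3 := alg1 (C (s : ℂ)) (C (k : ℂ)) (C ((k : ℂ) - 1)) (C ((k : ℂ) * (k - 1)))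
        (C (2 * ((k : ℂ) - 1))) X p (derivative p) (derivative (derivative p)) y (y ^ j) h _ hjh e2
      rw [hode, mul_zero] at e3
      have e4 := (mul_eq_zero.1 e3.symm).resolve_left (pow_ne_zero _ hy0)
      have e5 := congrArg (eval t) e4
      simp only [eval_add, eval_mul, eval_sub, eval_pow, eval_C, eval_X, eval_ofNat, eval_one,
        eval_zero, hpt, hyt, zero_pow hj, mul_zero, zero_mul, sub_zero, add_zero, zero_add] at e5
      have hjC : (j : ℂ) ≠ 0 := by exact_mod_cast hj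
      have e6 : (8 * (s : ℂ)) * (((k : ℂ) * eval t p) ^ 2 * ((j : ℂ) * eval t h)) = 0 := by
        rw [← e5]
      rcases mul_eq_zero.1 e6 with h8 | h8
      · exact absurd h8 (mul_ne_zero (by norm_num) hsC)
      · rcases mul_eq_zero.1 h8 with h9 | h9
        · have := pow_eq_zero_iff (two_ne_zero) |>.1 h9
          exact (mul_eq_zero.1 this).resolve_left hkC
        · exact absurd h9 (mul_ne_zero hjC hh)
    obtain ⟨i, g, hig, hg⟩ := root_data p hp0 t
    rw [← hy] at hig
    have hi : i ≠ 0 := by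
      rintro rfl
      rw [hig] at hpt0
      simp at hpt0
      exact hg hpt0
    have e1 : y * derivative p = y ^ i * (C (i : ℂ) * g + y * derivative g) := by
      conv_lhs => rw [hig]
      exact d1 y g hdy i
    have e2 : y ^ 2 * derivative (derivative p) = y ^ i * (C ((i : ℂ) * (i - 1)) * g +
        C (2 * (i : ℂ)) * y * derivative g + y ^ 2 * derivative (derivative g)) := by
      conv_lhs => rw [hig]
      exact d2 y g hdy i
    have hi1 : i ≠ 1 := by
      rintro rfl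
      rw [pow_one] at e1
      have := mul_left_cancel₀ hy0 e1
      rw [this] at hpt
      simp [hyt] at hpt
      exact hg hpt
    have e3 := alg2 (C (s : ℂ)) (C (k : ℂ)) (C ((k : ℂ) - 1)) (C ((k : ℂ) * (k - 1)))
      (C (2 * ((k : ℂ) - 1))) X p (derivative p) (derivative (derivative p)) y (y ^ i) g _ _ hig e1 e2
    rw [hode, mul_zero] at e3
    have e4 := (mul_eq_zero.1 e3.symm).resolve_left (pow_ne_zero _ (pow_ne_zero _ hy0))
    have e5 := congrArg (eval t) e4
    simp only [eval_add, eval_mul, eval_sub, eval_pow, eval_C, eval_X, eval_ofNat, eval_one,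
      eval_zero, hyt, mul_zero, zero_mul, sub_zero, add_zero, zero_add, zero_sub,
      zero_pow two_ne_zero] at e5
    have e6 : (1 + 2 * (s : ℂ)) * (16 * (t ^ 2 * ((i : ℂ) ^ 2 * ((i * (i - 1)) *
        (eval t g) ^ 3)))) = 0 := by
      rw [← e5]; ring
    have hiC : (i : ℂ) ≠ 0 := by exact_mod_cast hi
    have hiC1 : (i : ℂ) - 1 ≠ 0 := by
      intro h; apply hi1; exact_mod_cast sub_eq_zero.1 h
    exact absurd e6 (mul_ne_zero h24 (mul_ne_zero (by norm_num) (mul_ne_zero (pow_ne_zero _ ht)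
      (mul_ne_zero (pow_ne_zero _ hiC) (mul_ne_zero (mul_ne_zero hiC hiC1) (pow_ne_zero _ hg))))))
  -- p' = c X^j
  obtain ⟨j, h, hjh, hh⟩ := root_data (derivative p) hp' 0
  rw [C_0, sub_zero] at hjh
  have hhr : ∀ t : ℂ, h.eval t ≠ 0 := by
    intro t h0
    by_cases ht : t = 0
    · rw [ht] at h0; exact hh h0
    · apply hroot t ht
      rw [hjh, eval_mul, h0, mul_zero]
  have hdeg0 : h.degree = 0 := by
    by_contra hd
    obtain ⟨z, hz⟩ := IsAlgClosed.exists_root h hd
    exact hhr z hz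
  obtain ⟨c, hc⟩ : ∃ c, h = C c := ⟨_, eq_C_of_degree_eq_zero hdeg0⟩
  have hc0 : c ≠ 0 := by
    rintro rfl
    rw [hc] at hdeg0
    simp at hdeg0
  have hj1 : ((j : ℂ) + 1) ≠ 0 := by exact_mod_cast Nat.succ_ne_zero j
  obtain ⟨α, hα⟩ : ∃ α : ℂ, α = c / (j + 1) := ⟨_, rfl⟩
  have hα0 : α ≠ 0 := by rw [hα]; exact div_ne_zero hc0 hj1
  have hcα : c = α * (j + 1) := by rw [hα]; field_simp
  have hpb : ∃ b, p = C α * X ^ (j + 1) + C b := by
    have : derivative (p - C α * X ^ (j + 1)) = 0 := by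
      rw [derivative_sub, hjh, hc, derivative_C_mul, derivative_X_pow, hcα]
      simp only [Nat.add_sub_cancel, C_mul, C_add, map_natCast, Nat.cast_add, Nat.cast_one, C_1]
      ring
    have h2 := eq_C_of_natDegree_eq_zero (derivative_eq_zero.1 this)
    exact ⟨_, by rw [← h2]; ring⟩
  obtain ⟨b, hb⟩ := hpb
  obtain ⟨r, hr⟩ : ∃ r : ℕ, r = j + 1 := ⟨_, rfl⟩
  have hr1 : 1 ≤ r := by omega
  rw [← hr] at hb
  have hrk : r ≤ k := by
    have h1 : (C α * X ^ r + C b : ℂ[X]).natDegree = r := by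
      rw [natDegree_add_C, natDegree_C_mul_X_pow _ _ hα0]
    rw [← hb] at h1
    omega
  -- the three coefficients
  have hpoly : ∀ y : ℂ, (8 * (s : ℂ) * ((k : ℂ) ^ 2 * b ^ 2 * (r * (r - 1)))) * y +
      (16 * (1 + (s : ℂ)) * (k * b * r ^ 2 * (k - r)) + 8 * (s : ℂ) *
        (r ^ 2 * (k * (k - 1)) * b + 2 * (k - r) * (k * b) * (r * (r - 1)))) * y ^ 2 +
      (8 * (r * (k - r)) * (2 * (1 + 2 * (s : ℂ)) * (r * (k - r)) - s * k)) * y ^ 3 = 0 := by
    intro y
    obtain ⟨x, hx⟩ := IsAlgClosed.exists_pow_nat_eq (y / α) (n := r) (by omega)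
    have hY : α * x ^ r = y := by rw [hx]; field_simp
    have h1 : x * (derivative p).eval x = r * y := by
      rw [hb, derivative_add, derivative_C, derivative_C_mul, derivative_X_pow, ← hY]
      simp only [add_zero, eval_mul, eval_C, eval_pow, eval_X, eval_natCast]
      obtain ⟨r', rfl⟩ : ∃ r', r = r' + 1 := ⟨r - 1, by omega⟩
      rw [Nat.add_sub_cancel, pow_succ]
      ring
    have h2 : x ^ 2 * (derivative (derivative p)).eval x = r * (r - 1) * y := by
      rw [hb, derivative_add, derivative_C, derivative_C_mul, derivative_X_pow, ← hY, add_zero,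
        ← mul_assoc, ← C_mul, derivative_C_mul, derivative_X_pow]
      simp only [eval_mul, eval_C, eval_pow, eval_X, map_natCast]
      rcases Nat.lt_or_ge r 2 with h | h
      · have : r = 1 := by omega
        subst this; simp
      · obtain ⟨r', rfl⟩ : ∃ r', r = r' + 2 := ⟨r - 2, by omega⟩
        have e1 : r' + 2 - 1 = r' + 1 := by omega
        have e2 : r' + 2 - 1 - 1 = r' := by omega
        rw [e1, Nat.add_sub_cancel]
        push_cast
        simp only [eval_add, eval_natCast, eval_one]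
        ring
    have h0 : p.eval x = y + b := by
      rw [hb]; simp [hY]
    have h3 := congrArg (eval x) hode
    simp only [F2, eval_add, eval_mul, eval_sub, eval_pow, eval_C, eval_X, eval_ofNat, eval_one,
      eval_zero, h0] at h3
    have h4 : x ^ 2 * 0 = (0 : ℂ) := mul_zero _
    rw [← h3] at h4
    rw [h3] at h4
    obtain ⟨P1, hP1⟩ : ∃ P1, P1 = (derivative p).eval x := ⟨_, rfl⟩
    obtain ⟨P2, hP2⟩ : ∃ P2, P2 = (derivative (derivative p)).eval x := ⟨_, rfl⟩
    rw [← hP1, ← hP2] at h3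
    rw [← hP1] at h1
    rw [← hP2] at h2
    have h5 : x ^ 2 * (16 * (1 + (s : ℂ)) * ((k * (y + b) - x * P1) * P1 * ((k - 1) * P1 - x * P2)) +
        8 * s * (P1 ^ 2 * (k * (k - 1) * (y + b) - 2 * (k - 1) * (x * P1) + x ^ 2 * P2) +
          (k * (y + b) - x * P1) ^ 2 * P2)) = 0 := by
      rw [h3, mul_zero]
    have h6 : x ^ 2 * (16 * (1 + (s : ℂ)) * ((k * (y + b) - x * P1) * P1 * ((k - 1) * P1 - x * P2)) +
        8 * s * (P1 ^ 2 * (k * (k - 1) * (y + b) - 2 * (k - 1) * (x * P1) + x ^ 2 * P2) +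
          (k * (y + b) - x * P1) ^ 2 * P2)) =
        16 * (1 + (s : ℂ)) * ((k * (y + b) - (x * P1)) * (x * P1) * ((k - 1) * (x * P1) - (x ^ 2 * P2))) +
        8 * s * ((x * P1) ^ 2 * (k * (k - 1) * (y + b) - 2 * (k - 1) * (x * P1) + (x ^ 2 * P2)) +
          (k * (y + b) - (x * P1)) ^ 2 * (x ^ 2 * P2)) := by ring
    rw [h6, h1, h2] at h5
    rw [← h5]
    ring
  obtain ⟨-, c2, c3⟩ := cubic_zero _ _ _ hpoly
  have hrC : (r : ℂ) ≠ 0 := by
    have : r ≠ 0 := by omega
    exact_mod_cast this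
  have hreq : r = k := by
    by_contra hne
    have hlt : r + 1 ≤ k := by omega
    have h1 := key_ineq s hs k r hr1 hlt
    have h2 : (2 * (1 + 2 * (s : ℂ)) * (r * (k - r)) - s * k) ≠ 0 := by exact_mod_cast h1
    have h3 : ((k : ℂ) - r) ≠ 0 := by
      intro h; apply hne; exact_mod_cast (sub_eq_zero.1 h).symm
    exact absurd c3 (mul_ne_zero (mul_ne_zero (by norm_num) (mul_ne_zero hrC h3)) h2)
  subst hreq
  have hr1C : ((r : ℂ) - 1) ≠ 0 := by
    intro h
    have : r = 1 := by exact_mod_cast sub_eq_zero.1 h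
    omega
  have hb0 : b = 0 := by
    have h1 : (8 * (s : ℂ) * (r ^ 3 * (r - 1))) * b = 0 := by
      rw [← c2]; ring
    exact (mul_eq_zero.1 h1).resolve_left (mul_ne_zero (mul_ne_zero (by norm_num) hsC)
      (mul_ne_zero (pow_ne_zero _ hrC) hr1C))
  exact ⟨α, by rw [hb, hb0]; simp⟩

end Pool.Agent.H750R2.PLap
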