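import Mathlib
import Pool.Agent.H750R2.PLap.Basic
import Pool.Agent.H750R2.PLap.TwoD

set_option autoImplicit false

/-! No torus-equivariant polynomial solutions `x₊^J h(x₀, x₊x₋)`. -/

namespace Pool.Agent.H750R2.PLap

open Polynomial

section ring

variable {R : Type*} [CommRing R]

/-- The null p-Laplace expression on the jet of `x₊^J x₀^n g(x₊x₋/x₀²)` at `(1,1,t)`. -/
def FB (s J n t g g1 g2 : R) : R :=
  F s (J * g + t * g1) (n * g - 2 * (t * g1)) g1
    (J * (J - 1) * g + 2 * J * (t * g1) + t ^ 2 * g2)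
    (J * n * g + (n - 2 * J - 2) * (t * g1) - 2 * (t ^ 2 * g2))
    ((J + 1) * g1 + t * g2)
    (n * (n - 1) * g - 2 * (2 * n - 3) * (t * g1) + 4 * (t ^ 2 * g2))
    ((n - 2) * g1 - 2 * (t * g2)) g2

def th (J n t g g1 : R) : R := (n * g - 2 * (t * g1)) ^ 2 + 4 * ((J * g + t * g1) * g1)

def dth (J n t g g1 g2 : R) : R :=
  2 * (n * g - 2 * (t * g1)) * ((n - 2) * g1 - 2 * (t * g2)) +
    4 * (((J + 1) * g1 + t * g2) * g1 + (J * g + t * g1) * g2)

def Aa (s J n t g g1 g2 : R) : R :=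
  (n * (n - 1) * g - 2 * (2 * n - 3) * (t * g1) + 4 * (t ^ 2 * g2)) + 4 * ((J + 1) * g1 + t * g2) +
    s * ((2 * n - 2) * (n * g - 2 * (t * g1)) + 4 * J * g1)

def Qform (J n t g g1 : R) : R := (J - n * t) * g + 2 * t * (1 + t) * g1

theorem FB_th (s J n t g g1 g2 : R) :
    FB s J n t g g1 g2 = th J n t g g1 * Aa s J n t g g1 g2 +
      2 * s * Qform J n t g g1 * dth J n t g g1 g2 := by
  unfold FB F th Aa Qform dth; ring

theorem th_id (J n t g g1 : R) :
    t * (1 + t) * th J n t g g1 =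
      Qform J n t g g1 ^ 2 + g ^ 2 * (((J + n) ^ 2 - J ^ 2) * t - J ^ 2) := by
  unfold th Qform; ring

/-- generic point -/
theorem FB_gen (s J n t g g1 g2 y Y h a b : R) (h0 : g = Y * h) (h1 : y * g1 = Y * a)
    (h2 : y ^ 2 * g2 = Y * b) :
    y ^ 4 * FB s J n t g g1 g2 = Y ^ 3 *
      F s (J * y * h + t * a) (n * y * h - 2 * (t * a)) a
    (J * (J - 1) * y ^ 2 * h + 2 * J * (t * y * a) + t ^ 2 * b)
    (J * n * y ^ 2 * h + (n - 2 * J - 2) * (t * y * a) - 2 * (t ^ 2 * b))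
    ((J + 1) * y * a + t * b)
    (n * (n - 1) * y ^ 2 * h - 2 * (2 * n - 3) * (t * y * a) + 4 * (t ^ 2 * b))
    ((n - 2) * y * a - 2 * (t * b)) b := by
  have e : y ^ 4 * FB s J n t g g1 g2 =
      F s (J * y * g + t * (y * g1)) (n * y * g - 2 * (t * (y * g1))) (y * g1)
    (J * (J - 1) * y ^ 2 * g + 2 * J * (t * y * (y * g1)) + t ^ 2 * (y ^ 2 * g2))
    (J * n * y ^ 2 * g + (n - 2 * J - 2) * (t * y * (y * g1)) - 2 * (t ^ 2 * (y ^ 2 * g2)))
    ((J + 1) * y * (y * g1) + t * (y ^ 2 * g2))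
    (n * (n - 1) * y ^ 2 * g - 2 * (2 * n - 3) * (t * y * (y * g1)) + 4 * (t ^ 2 * (y ^ 2 * g2)))
    ((n - 2) * y * (y * g1) - 2 * (t * (y ^ 2 * g2))) (y ^ 2 * g2) := by
    unfold FB F; ring
  rw [e, h0, h1, h2]
  unfold F; ring

/-- at `t = 0` -/
theorem FB_zero (s J n t g g1 g2 Y h a b : R) (h0 : g = Y * h) (h1 : t * g1 = Y * a)
    (h2 : t ^ 2 * g2 = Y * b) :
    t ^ 2 * FB s J n t g g1 g2 = Y ^ 3 *
      (F2 s (J * h + a) a (J * (J - 1) * h + 2 * J * a + b) ((J + 1) * a + b) b +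
        t * (4 * ((J * h + a) * a * (n * (n - 1) * h - 2 * (2 * n - 3) * a + 4 * b)) +
          4 * (n * h - 2 * a) ^ 2 * ((J + 1) * a + b) +
          8 * s * ((n * h - 2 * a) * a * (J * n * h + (n - 2 * J - 2) * a - 2 * b) +
            (n * h - 2 * a) * (J * h + a) * ((n - 2) * a - 2 * b))) +
        t ^ 2 * ((1 + 2 * s) * ((n * h - 2 * a) ^ 2 *
          (n * (n - 1) * h - 2 * (2 * n - 3) * a + 4 * b)))) := by
  have e : t ^ 2 * FB s J n t g g1 g2 =
      (F2 s (J * g + t * g1) (t * g1) (J * (J - 1) * g + 2 * J * (t * g1) + t ^ 2 * g2)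
        ((J + 1) * (t * g1) + t ^ 2 * g2) (t ^ 2 * g2) +
        t * (4 * ((J * g + t * g1) * (t * g1) * (n * (n - 1) * g - 2 * (2 * n - 3) * (t * g1) +
            4 * (t ^ 2 * g2))) +
          4 * (n * g - 2 * (t * g1)) ^ 2 * ((J + 1) * (t * g1) + t ^ 2 * g2) +
          8 * s * ((n * g - 2 * (t * g1)) * (t * g1) * (J * n * g + (n - 2 * J - 2) * (t * g1) -
              2 * (t ^ 2 * g2)) +
            (n * g - 2 * (t * g1)) * (J * g + t * g1) * ((n - 2) * (t * g1) - 2 * (t ^ 2 * g2)))) +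
        t ^ 2 * ((1 + 2 * s) * ((n * g - 2 * (t * g1)) ^ 2 *
          (n * (n - 1) * g - 2 * (2 * n - 3) * (t * g1) + 4 * (t ^ 2 * g2))))) := by
    unfold FB F F2; ring
  rw [e, h0, h1, h2]
  unfold F2; ring

/-- at `t = -1` -/
theorem FB_neg (s J n t g g1 g2 y Y h a b : R) (ht : t = y - 1) (h0 : g = Y * h)
    (h1 : y * g1 = Y * a) (h2 : y ^ 2 * g2 = Y * b) :
    y ^ 2 * FB s J n t g g1 g2 = Y ^ 3 *
      ((4 * a * ((J + n) * h - a) + y * (n * h - 2 * a) ^ 2) *
        (n * (n - 1) * y * h - 2 * (2 * n - 3) * (y - 1) * a + 4 * (y - 1) * b + 4 * (J + 1) * a +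
          s * ((2 * n - 2) * (n * y * h - 2 * (y - 1) * a) + 4 * J * a)) +
       2 * s * ((J + n - n * y) * h + 2 * (y - 1) * a) *
        (4 * b * ((J + n) * h - a) + 4 * a * ((J + n - 1) * a - b) +
          2 * y * (n * h - 2 * a) * ((n - 2) * a - 2 * b))) := by
  have e1 : y * th J n t g g1 =
      4 * (y * g1) * ((J + n) * g - y * g1) + y * (n * g - 2 * (y * g1)) ^ 2 := by
    rw [ht]; unfold th; ring
  have e2 : y * Aa s J n t g g1 g2 = n * (n - 1) * y * g - 2 * (2 * n - 3) * (y - 1) * (y * g1) +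
      4 * (y - 1) * (y ^ 2 * g2) + 4 * (J + 1) * (y * g1) +
          s * ((2 * n - 2) * (n * y * g - 2 * (y - 1) * (y * g1)) + 4 * J * (y * g1)) := by
    rw [ht]; unfold Aa; ring
  have e3 : Qform J n t g g1 = (J + n - n * y) * g + 2 * (y - 1) * (y * g1) := by
    rw [ht]; unfold Qform; ring
  have e4 : y ^ 2 * dth J n t g g1 g2 = 4 * (y ^ 2 * g2) * ((J + n) * g - y * g1) +
      4 * (y * g1) * ((J + n - 1) * (y * g1) - y ^ 2 * g2) +
          2 * y * (n * g - 2 * (y * g1)) * ((n - 2) * (y * g1) - 2 * (y ^ 2 * g2)) := by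
    rw [ht]; unfold dth; ring
  have e5 : y ^ 2 * FB s J n t g g1 g2 = (y * th J n t g g1) * (y * Aa s J n t g g1 g2) +
      2 * s * Qform J n t g g1 * (y ^ 2 * dth J n t g g1 g2) := by
    rw [FB_th]; ring
  rw [e5, e1, e2, e3, e4, h0, h1, h2]
  ring

end ring

theorem neg_ineq (s : ℝ) (hs : -(1 / 2) < s) (m j : ℝ) (hj : 1 ≤ j) (hjm : 2 * j ≤ m) :
    (j * (4 * m + 2 - 4 * j) + 2 * s * (4 * m * j - m - 4 * j ^ 2) : ℝ) ≠ 0 := by
  have h1 : 0 ≤ 4 * m * j - m - 4 * j ^ 2 := by nlinarith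
  have h2 : -(1 : ℝ) * (4 * m * j - m - 4 * j ^ 2) ≤ 2 * s * (4 * m * j - m - 4 * j ^ 2) :=
    mul_le_mul_of_nonneg_right (by linarith) h1
  have : 0 < j * (4 * m + 2 - 4 * j) + 2 * s * (4 * m * j - m - 4 * j ^ 2) := by nlinarith
  exact this.ne'

section poly

variable (s : ℝ) (J n : ℕ) (g : ℂ[X])

/-- the polynomial identity -/
def Ode : Prop :=
  FB (C (s : ℂ)) (C (J : ℂ)) (C (n : ℂ)) X g (derivative g) (derivative (derivative g)) = 0

noncomputable def thp : ℂ[X] := th (C (J : ℂ)) (C (n : ℂ)) X g (derivative g)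

theorem der_thp : derivative (thp J n g) =
    dth (C (J : ℂ)) (C (n : ℂ)) X g (derivative g) (derivative (derivative g)) := by
  unfold thp th dth
  simp only [derivative_add, derivative_mul, derivative_sub, derivative_pow, derivative_C,
    derivative_X, zero_mul, zero_add, derivative_ofNat, Nat.cast_ofNat, map_ofNat]
  simp only [show (2 - 1 : ℕ) = 1 from rfl, pow_one]
  ring

/-- `g` has no zero at the zeros of `θ` -/
theorem g_ne (hs : -(1 / 2) < s) (hn : 2 ≤ n) (hg : g ≠ 0)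
    (hdeg : 2 * g.natDegree ≤ n) (hode : Ode s J n g) (t : ℂ)
    (ht : (thp J n g).eval t = 0)
    (hQ : (Qform (C (J : ℂ)) (C (n : ℂ)) X g (derivative g)).eval t = 0) : g.eval t ≠ 0 := by
  intro hgt
  obtain ⟨y, hy⟩ : ∃ y : ℂ[X], y = X - C t := ⟨_, rfl⟩
  have hdy : derivative y = 1 := by simp [hy]
  have hyt : y.eval t = 0 := by simp [hy]
  have hy0 : y ≠ 0 := by rw [hy]; exact X_sub_C_ne_zero t
  obtain ⟨j, h, hjh, hh⟩ := root_data g hg t
  rw [← hy] at hjh
  have hj : j ≠ 0 := by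
    rintro rfl
    rw [hjh] at hgt
    simp at hgt
    exact hh hgt
  have hjC : (j : ℂ) ≠ 0 := by exact_mod_cast hj
  have e1 : y * derivative g = y ^ j * (C (j : ℂ) * h + y * derivative h) := by
    conv_lhs => rw [hjh]
    exact d1 y h hdy j
  have e2 : y ^ 2 * derivative (derivative g) = y ^ j * (C ((j : ℂ) * (j - 1)) * h +
      C (2 * (j : ℂ)) * y * derivative h + y ^ 2 * derivative (derivative h)) := by
    conv_lhs => rw [hjh]
    exact d2 y h hdy j
  have hjd : j ≤ g.natDegree := by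
    have h0 : h ≠ 0 := by rintro rfl; simp at hh
    rw [hjh, natDegree_mul (pow_ne_zero _ hy0) h0, natDegree_pow, hy, natDegree_X_sub_C]
    omega
  have h12 : (1 + 2 * (s : ℂ)) ≠ 0 := by
    have : (1 + 2 * s : ℝ) ≠ 0 := by
      have : 0 < 1 + 2 * s := by linarith
      exact this.ne'
    exact_mod_cast this
  by_cases ht0 : t = 0
  · -- t = 0
    have hyX : y = X := by rw [hy, ht0]; simp
    rw [hyX] at e1 e2 hjh
    have e3 := FB_zero (C (s : ℂ)) (C (J : ℂ)) (C (n : ℂ)) X g (derivative g)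
      (derivative (derivative g)) (X ^ j) h _ _ hjh e1 e2
    rw [hode, mul_zero] at e3
    have e4 := (mul_eq_zero.1 e3.symm).resolve_left (pow_ne_zero _ (pow_ne_zero _ X_ne_zero))
    have e5 := congrArg (eval 0) e4
    simp only [F2, eval_add, eval_mul, eval_sub, eval_pow, eval_C, eval_X, eval_ofNat, eval_one,
      eval_zero, zero_mul, add_zero, mul_zero, zero_pow two_ne_zero] at e5
    have hrJ : (1 : ℕ) ≤ j := by omega
    have hh0 : eval 0 h ≠ 0 := by
      intro h0; apply hh; rw [ht0]; exact h0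
    by_cases hJj : J + j + j ≤ 1
    · omega
    have h1 := key_ineq s hs (J + j + j) j hrJ (by omega)
    have h2 : (2 * (1 + 2 * (s : ℂ)) * (j * ((J + j + j : ℕ) - j)) - s * ((J + j + j : ℕ) : ℂ)) ≠ 0 := by
      exact_mod_cast h1
    push_cast at h2
    have hJjC : ((J : ℂ) + j) ≠ 0 := by
      have : J + j ≠ 0 := by omega
      exact_mod_cast this
    have e6 : 8 * (j * (J + j)) * (2 * (1 + 2 * (s : ℂ)) * (j * ((J : ℂ) + j + j - j)) -
        s * ((J : ℂ) + j + j)) * (eval 0 h) ^ 3 = 0 := by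
      linear_combination e5
    exact absurd e6 (mul_ne_zero (mul_ne_zero (mul_ne_zero (by norm_num)
      (mul_ne_zero hjC hJjC)) h2) (pow_ne_zero _ hh0))
  by_cases ht1 : t = -1
  · have hX : (X : ℂ[X]) = y - 1 := by rw [hy, ht1]; simp
    have e3 := FB_neg (C (s : ℂ)) (C (J : ℂ)) (C (n : ℂ)) X g (derivative g)
      (derivative (derivative g)) y (y ^ j) h _ _ hX hjh e1 e2
    rw [hode, mul_zero] at e3
    have e4 := (mul_eq_zero.1 e3.symm).resolve_left (pow_ne_zero _ (pow_ne_zero _ hy0))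
    have e5 := congrArg (eval t) e4
    simp only [eval_add, eval_mul, eval_sub, eval_pow, eval_C, eval_X, eval_ofNat, eval_one,
      eval_zero, hyt, zero_mul, add_zero, mul_zero, zero_pow two_ne_zero, sub_zero, zero_sub] at e5
    have hj1R : (1 : ℝ) ≤ j := by exact_mod_cast Nat.one_le_iff_ne_zero.2 hj
    have hjmR : 2 * (j : ℝ) ≤ (J : ℝ) + n := by
      have : 2 * j ≤ J + n := by omega
      exact_mod_cast this
    have h1 := neg_ineq s hs ((J : ℝ) + n) j hj1R hjmR
    have h2 : (j * (4 * ((J : ℂ) + n) + 2 - 4 * j) + 2 * s * (4 * ((J : ℂ) + n) * j -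
        ((J : ℂ) + n) - 4 * j ^ 2)) ≠ 0 := by exact_mod_cast h1
    have h3 : ((J : ℂ) + n - j) ≠ 0 := by
      intro h0
      have : J + n = j := by exact_mod_cast sub_eq_zero.1 h0
      omega
    have e6 : 4 * (j * ((J : ℂ) + n - j)) * (j * (4 * ((J : ℂ) + n) + 2 - 4 * j) +
        2 * s * (4 * ((J : ℂ) + n) * j - ((J : ℂ) + n) - 4 * j ^ 2)) * (eval t h) ^ 3 = 0 := by
      rw [← e5]; ring
    exact absurd e6 (mul_ne_zero (mul_ne_zero (mul_ne_zero (by norm_num)
      (mul_ne_zero hjC h3)) h2) (pow_ne_zero _ hh))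
  · -- generic
    have ht1' : 1 + t ≠ 0 := by
      intro h0; apply ht1; linear_combination h0
    have hg1 : (derivative g).eval t = 0 := by
      simp only [Qform, eval_add, eval_mul, eval_sub, eval_C, eval_X, eval_ofNat, eval_one, hgt,
        mul_zero, zero_add] at hQ
      exact (mul_eq_zero.1 hQ).resolve_left (mul_ne_zero (mul_ne_zero two_ne_zero ht0) ht1')
    have hj1 : j ≠ 1 := by
      rintro rfl
      rw [pow_one] at e1
      have := mul_left_cancel₀ hy0 e1
      rw [this] at hg1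
      simp [hyt] at hg1
      exact hh hg1
    have e3 := FB_gen (C (s : ℂ)) (C (J : ℂ)) (C (n : ℂ)) X g (derivative g)
      (derivative (derivative g)) y (y ^ j) h _ _ hjh e1 e2
    rw [hode, mul_zero] at e3
    have e4 := (mul_eq_zero.1 e3.symm).resolve_left (pow_ne_zero _ (pow_ne_zero _ hy0))
    have e5 := congrArg (eval t) e4
    simp only [F, eval_add, eval_mul, eval_sub, eval_pow, eval_C, eval_X, eval_ofNat, eval_one,
      eval_zero, hyt, zero_mul, add_zero, mul_zero, zero_pow two_ne_zero, sub_zero, zero_sub,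
      zero_add] at e5
    have hj1C : (j : ℂ) - 1 ≠ 0 := by
      intro h0; apply hj1; exact_mod_cast sub_eq_zero.1 h0
    have e6 : 16 * (1 + 2 * (s : ℂ)) * (t ^ 2 * (1 + t) ^ 2) * (j ^ 2 * (j * (j - 1))) *
        (eval t h) ^ 3 = 0 := by
      rw [← e5]; ring
    exact absurd e6 (mul_ne_zero (mul_ne_zero (mul_ne_zero (mul_ne_zero (by norm_num) h12)
      (mul_ne_zero (pow_ne_zero _ ht0) (pow_ne_zero _ ht1')))
      (mul_ne_zero (pow_ne_zero _ hjC) (mul_ne_zero hjC hj1C))) (pow_ne_zero _ hh))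

theorem thp_ne (hn : 2 ≤ n) (hg : g ≠ 0) : thp J n g ≠ 0 := by
  intro h0
  have h1 := th_id (C (J : ℂ)) (C (n : ℂ)) X g (derivative g)
  have h2 : th (C (J : ℂ)) (C (n : ℂ)) X g (derivative g) = 0 := h0
  rw [h2, mul_zero] at h1
  set Q := Qform (C (J : ℂ)) (C (n : ℂ)) X g (derivative g) with hQ
  have hc : (((J : ℂ) + n) ^ 2 - J ^ 2) ≠ 0 := by
    have hJn : J ^ 2 < (J + n) ^ 2 := Nat.pow_lt_pow_left (by omega) (by norm_num)
    intro h
    have : ((J + n) ^ 2 : ℕ) = J ^ 2 := by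
      have h' := sub_eq_zero.1 h
      exact_mod_cast h'
    omega
  have hlin : ((C (J : ℂ) + C (n : ℂ)) ^ 2 - C (J : ℂ) ^ 2) * X - C (J : ℂ) ^ 2 =
      C (((J : ℂ) + n) ^ 2 - J ^ 2) * X + C (-(J : ℂ) ^ 2) := by
    simp only [C_add, C_sub, C_pow, C_neg]; ring
  rw [hlin] at h1
  have hL : (C (((J : ℂ) + n) ^ 2 - J ^ 2) * X + C (-(J : ℂ) ^ 2)).natDegree = 1 :=
    natDegree_linear hc
  have hL0 : (C (((J : ℂ) + n) ^ 2 - J ^ 2) * X + C (-(J : ℂ) ^ 2)) ≠ 0 := by
    intro h; rw [h] at hL; simp at hL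
  have h3 : Q ^ 2 = -(g ^ 2 * (C (((J : ℂ) + n) ^ 2 - J ^ 2) * X + C (-(J : ℂ) ^ 2))) := by
    linear_combination -h1
  have h4 := congrArg natDegree h3
  rw [natDegree_neg, natDegree_mul (pow_ne_zero _ hg) hL0, hL, natDegree_pow, natDegree_pow] at h4
  omega

theorem root_facts (hs : -(1 / 2) < s) (hs0 : s ≠ 0) (hn : 2 ≤ n) (hg : g ≠ 0)
    (hdeg : 2 * g.natDegree ≤ n) (hode : Ode s J n g) (t : ℂ)
    (ht : (thp J n g).eval t = 0) :
    g.eval t ≠ 0 ∧ (((J : ℂ) + n) ^ 2 - J ^ 2) * t - J ^ 2 = 0 ∧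
      (derivative (thp J n g)).eval t ≠ 0 := by
  have hsC : (s : ℂ) ≠ 0 := by exact_mod_cast hs0
  have hth0 := thp_ne J n g hn hg
  have hc : (((J : ℂ) + n) ^ 2 - J ^ 2) ≠ 0 := by
    have hJn : J ^ 2 < (J + n) ^ 2 := Nat.pow_lt_pow_left (by omega) (by norm_num)
    intro h
    have : ((J + n) ^ 2 : ℕ) = J ^ 2 := by
      have h' := sub_eq_zero.1 h
      exact_mod_cast h'
    omega
  have hQ : (Qform (C (J : ℂ)) (C (n : ℂ)) X g (derivative g)).eval t = 0 := by
    obtain ⟨y, hy⟩ : ∃ y : ℂ[X], y = X - C t := ⟨_, rfl⟩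
    have hdy : derivative y = 1 := by simp [hy]
    have hyt : y.eval t = 0 := by simp [hy]
    have hy0 : y ≠ 0 := by rw [hy]; exact X_sub_C_ne_zero t
    obtain ⟨i, Θ, hi, hΘ⟩ := root_data _ hth0 t
    rw [← hy] at hi
    have hi0 : i ≠ 0 := by
      rintro rfl
      rw [hi] at ht
      simp at ht
      exact hΘ ht
    have hiC : (i : ℂ) ≠ 0 := by exact_mod_cast hi0
    have e1 : y * derivative (thp J n g) = y ^ i * (C (i : ℂ) * Θ + y * derivative Θ) := by
      conv_lhs => rw [hi]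
      exact d1 y Θ hdy i
    have e2 : thp J n g * Aa (C (s : ℂ)) (C (J : ℂ)) (C (n : ℂ)) X g (derivative g)
        (derivative (derivative g)) + 2 * C (s : ℂ) * Qform (C (J : ℂ)) (C (n : ℂ)) X g (derivative g) *
          derivative (thp J n g) = 0 := by
      rw [der_thp]
      unfold thp
      rw [← FB_th]
      exact hode
    have e3 : y ^ i * (y * Θ * Aa (C (s : ℂ)) (C (J : ℂ)) (C (n : ℂ)) X g (derivative g)
        (derivative (derivative g)) + 2 * C (s : ℂ) * Qform (C (J : ℂ)) (C (n : ℂ)) X g (derivative g) *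
          (C (i : ℂ) * Θ + y * derivative Θ)) = 0 := by
      have h1 : y * (thp J n g * Aa (C (s : ℂ)) (C (J : ℂ)) (C (n : ℂ)) X g (derivative g)
        (derivative (derivative g)) + 2 * C (s : ℂ) * Qform (C (J : ℂ)) (C (n : ℂ)) X g (derivative g) *
          derivative (thp J n g)) = 0 := by rw [e2, mul_zero]
      linear_combination h1 - (y * Aa (C (s : ℂ)) (C (J : ℂ)) (C (n : ℂ)) X g (derivative g)
        (derivative (derivative g))) * hi - (2 * C (s : ℂ) *
          Qform (C (J : ℂ)) (C (n : ℂ)) X g (derivative g)) * e1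
    have e4 := (mul_eq_zero.1 e3).resolve_left (pow_ne_zero _ hy0)
    have e5 := congrArg (eval t) e4
    simp only [eval_add, eval_mul, eval_C, eval_ofNat, eval_zero, hyt, zero_mul, add_zero,
      zero_add] at e5
    rcases mul_eq_zero.1 e5 with h | h
    · exact (mul_eq_zero.1 h).resolve_left (mul_ne_zero two_ne_zero hsC)
    · exact absurd h (mul_ne_zero hiC hΘ)
  have hgt := g_ne s J n g hs hn hg hdeg hode t ht hQ
  have hid := th_id (C (J : ℂ)) (C (n : ℂ)) X g (derivative g)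
  have hlin : (((J : ℂ) + n) ^ 2 - J ^ 2) * t - J ^ 2 = 0 := by
    have h1 := congrArg (eval t) hid
    have ht' : (th (C (J : ℂ)) (C (n : ℂ)) X g (derivative g)).eval t = 0 := ht
    simp only [eval_mul, eval_add, eval_sub, eval_pow, eval_C, eval_X, eval_one, ht', hQ,
      mul_zero, zero_pow two_ne_zero, zero_add] at h1
    exact (mul_eq_zero.1 h1.symm).resolve_left (pow_ne_zero _ hgt)
  refine ⟨hgt, hlin, ?_⟩
  intro hd
  have h1 := congrArg (fun q => eval t (derivative q)) hid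
  have ht' : (th (C (J : ℂ)) (C (n : ℂ)) X g (derivative g)).eval t = 0 := ht
  have hd' : (derivative (th (C (J : ℂ)) (C (n : ℂ)) X g (derivative g))).eval t = 0 := hd
  obtain ⟨Q, hQe⟩ : ∃ Q, Q = Qform (C (J : ℂ)) (C (n : ℂ)) X g (derivative g) := ⟨_, rfl⟩
  obtain ⟨T, hTe⟩ : ∃ T, T = th (C (J : ℂ)) (C (n : ℂ)) X g (derivative g) := ⟨_, rfl⟩
  rw [← hQe, ← hTe] at h1
  rw [← hQe] at hQ
  rw [← hTe] at ht' hd'
  have e1 : derivative (((C (J : ℂ) + C (n : ℂ)) ^ 2 - C (J : ℂ) ^ 2) * X - C (J : ℂ) ^ 2) =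
      C (((J : ℂ) + n) ^ 2 - J ^ 2) := by
    have : ((C (J : ℂ) + C (n : ℂ)) ^ 2 - C (J : ℂ) ^ 2) * X - C (J : ℂ) ^ 2 =
        C (((J : ℂ) + n) ^ 2 - J ^ 2) * X - C ((J : ℂ) ^ 2) := by
      simp only [C_add, C_sub, C_pow]
    rw [this, derivative_sub, derivative_C_mul, derivative_X, derivative_C]
    simp
  have e2 : (((C (J : ℂ) + C (n : ℂ)) ^ 2 - C (J : ℂ) ^ 2) * X - C (J : ℂ) ^ 2).eval t = 0 := by
    simpa using hlin
  simp only [derivative_mul, derivative_add, derivative_pow, e1, eval_add, eval_mul, eval_pow, e2,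
    hQ, ht', hd', mul_zero, zero_add, add_zero, zero_mul, eval_C, Nat.cast_ofNat, map_ofNat,
    show (2 - 1 : ℕ) = 1 from rfl, pow_one] at h1
  exact absurd h1.symm (mul_ne_zero (pow_ne_zero _ hgt) hc)

theorem thp_deg (hs : -(1 / 2) < s) (hs0 : s ≠ 0) (hn : 2 ≤ n) (hg : g ≠ 0)
    (hdeg : 2 * g.natDegree ≤ n) (hode : Ode s J n g) : (thp J n g).natDegree ≤ 1 := by
  by_contra hlt
  push Not at hlt
  have hc : (((J : ℂ) + n) ^ 2 - J ^ 2) ≠ 0 := by
    have hJn : J ^ 2 < (J + n) ^ 2 := Nat.pow_lt_pow_left (by omega) (by norm_num)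
    intro h
    have : ((J + n) ^ 2 : ℕ) = J ^ 2 := by
      have h' := sub_eq_zero.1 h
      exact_mod_cast h'
    omega
  have hth0 := thp_ne J n g hn hg
  have hd1 : (thp J n g).degree ≠ 0 := by
    rw [degree_eq_natDegree hth0]
    intro h
    have : (thp J n g).natDegree = 0 := by exact_mod_cast h
    omega
  obtain ⟨z, hz⟩ := IsAlgClosed.exists_root _ hd1
  obtain ⟨w, hw⟩ := dvd_iff_isRoot.2 hz
  have hw0 : w ≠ 0 := by rintro rfl; rw [mul_zero] at hw; exact hth0 hw
  have hwd : w.natDegree + 1 = (thp J n g).natDegree := by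
    rw [hw, natDegree_mul (X_sub_C_ne_zero z) hw0, natDegree_X_sub_C]; ring
  have hd2 : w.degree ≠ 0 := by
    rw [degree_eq_natDegree hw0]
    intro h
    have : w.natDegree = 0 := by exact_mod_cast h
    omega
  obtain ⟨z', hz'⟩ := IsAlgClosed.exists_root _ hd2
  have hz'' : (thp J n g).eval z' = 0 := by
    rw [hw, eval_mul, show w.eval z' = 0 from hz', mul_zero]
  have f1 := root_facts s J n g hs hs0 hn hg hdeg hode z hz
  have f2 := root_facts s J n g hs hs0 hn hg hdeg hode z' hz''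
  have hzz : z = z' := by
    have h1 := f1.2.1
    have h2 := f2.2.1
    have : (((J : ℂ) + n) ^ 2 - J ^ 2) * (z - z') = 0 := by linear_combination h1 - h2
    exact sub_eq_zero.1 ((mul_eq_zero.1 this).resolve_left hc)
  apply f1.2.2
  rw [hw, derivative_mul]
  simp only [derivative_sub, derivative_X, derivative_C, sub_zero, one_mul, eval_add, eval_mul,
    eval_sub, eval_X, eval_C, sub_self, zero_mul, add_zero]
  rw [hzz]; exact hz'

theorem lemB (hs : -(1 / 2) < s) (hs0 : s ≠ 0) (hn : 2 ≤ n) (hg : g ≠ 0)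
    (hdeg : 2 * g.natDegree ≤ n) (hode : Ode s J n g) : False := by
  have hsC : (s : ℂ) ≠ 0 := by exact_mod_cast hs0
  have h12 : (1 + 2 * (s : ℂ)) ≠ 0 := by
    have : (1 + 2 * s : ℝ) ≠ 0 := by
      have : 0 < 1 + 2 * s := by linarith
      exact this.ne'
    exact_mod_cast this
  have hle := thp_deg s J n g hs hs0 hn hg hdeg hode
  obtain ⟨d, hd⟩ : ∃ d, d = g.natDegree := ⟨_, rfl⟩
  have hγ : g.coeff d ≠ 0 := by rw [hd]; exact leadingCoeff_ne_zero.2 hg
  obtain ⟨q, hq⟩ : ∃ q, q = C (n : ℂ) * g - 2 * (X * derivative g) := ⟨_, rfl⟩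
  obtain ⟨p, hp⟩ : ∃ p, p = C (J : ℂ) * g + X * derivative g := ⟨_, rfl⟩
  have hthp : thp J n g = q * q + C 4 * (p * derivative g) := by
    rw [hq, hp]; unfold thp th
    rw [show (C 4 : ℂ[X]) = 4 from rfl]; ring
  have hXg : ∀ i, (X * derivative g).coeff i = i * g.coeff i := by
    intro i
    rcases i with _ | i
    · simp
    · rw [coeff_X_mul, coeff_derivative]; push_cast; ring
  have hqc : ∀ i, q.coeff i = (n - 2 * i) * g.coeff i := by
    intro i
    have h2 : (2 : ℂ[X]) * (X * derivative g) = C 2 * (X * derivative g) := rfl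
    rw [hq, h2, coeff_sub, coeff_C_mul, coeff_C_mul, hXg]; ring
  have hpc : ∀ i, p.coeff i = (J + i) * g.coeff i := by
    intro i
    rw [hp, coeff_add, coeff_C_mul, hXg]; ring
  have hqd : q.natDegree ≤ d := by
    rw [natDegree_le_iff_coeff_eq_zero]
    intro N hN
    rw [hqc, coeff_eq_zero_of_natDegree_lt (by omega), mul_zero]
  have hpd : p.natDegree ≤ d := by
    rw [natDegree_le_iff_coeff_eq_zero]
    intro N hN
    rw [hpc, coeff_eq_zero_of_natDegree_lt (by omega), mul_zero]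
  have hrd : (derivative g).natDegree ≤ d - 1 := by
    rw [hd]; exact natDegree_derivative_le g
  rcases Nat.lt_or_ge (2 * d) n with h2d | h2d
  · -- d = 0
    have hd0 : d = 0 := by
      by_contra hdne
      have h1 : (thp J n g).coeff (d + d) = 0 := coeff_eq_zero_of_natDegree_lt (by omega)
      rw [hthp, coeff_add, coeff_mul_add_eq_of_natDegree_le hqd hqd, coeff_C_mul,
        coeff_eq_zero_of_natDegree_lt (p := p * derivative g)
          (lt_of_le_of_lt natDegree_mul_le (by omega)), hqc] at h1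
      have h2 : ((n : ℂ) - 2 * d) ≠ 0 := by
        intro h
        have : n = 2 * d := by exact_mod_cast sub_eq_zero.1 h
        omega
      rw [mul_zero, add_zero] at h1
      exact absurd h1 (mul_ne_zero (mul_ne_zero h2 hγ) (mul_ne_zero h2 hγ))
    obtain ⟨γ, hγe⟩ : ∃ γ, g = C γ := ⟨_, eq_C_of_natDegree_eq_zero (by omega)⟩
    have hγ0 : γ ≠ 0 := by rintro rfl; simp at hγe; exact hg hγe
    have h1 := congrArg (eval 0) hode
    rw [hγe] at h1
    simp only [FB, F, derivative_C, eval_add, eval_mul, eval_sub, eval_pow, eval_C, eval_X,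
      eval_ofNat, eval_one, eval_zero, mul_zero, zero_mul, add_zero, sub_zero, derivative_zero] at h1
    have hnC : (n : ℂ) ≠ 0 := by
      have : n ≠ 0 := by omega
      exact_mod_cast this
    have hn1C : (n : ℂ) - 1 ≠ 0 := by
      intro h
      have : n = 1 := by exact_mod_cast sub_eq_zero.1 h
      omega
    have h2 : (1 + 2 * (s : ℂ)) * (n ^ 3 * (n - 1)) * γ ^ 3 = 0 := by linear_combination h1
    exact absurd h2 (mul_ne_zero (mul_ne_zero h12 (mul_ne_zero (pow_ne_zero _ hnC) hn1C))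
      (pow_ne_zero _ hγ0))
  · have h2d' : n = 2 * d := by omega
    have hd1 : 1 ≤ d := by omega
    have hde : d = 1 := by
      by_contra hdne
      have h1 : (thp J n g).coeff (d + (d - 1)) = 0 := coeff_eq_zero_of_natDegree_lt (by omega)
      have hqd' : q.natDegree ≤ d - 1 := by
        rw [natDegree_le_iff_coeff_eq_zero]
        intro N hN
        rw [hqc]
        rcases Nat.lt_or_ge d N with h | h
        · rw [coeff_eq_zero_of_natDegree_lt (by omega), mul_zero]
        · have : N = d := by omega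
          rw [this, h2d']; push_cast; ring
      rw [hthp, coeff_add, coeff_eq_zero_of_natDegree_lt (p := q * q)
          (lt_of_le_of_lt natDegree_mul_le (by omega)), coeff_C_mul,
        coeff_mul_add_eq_of_natDegree_le hpd hrd, hpc, coeff_derivative] at h1
      have h3 : d - 1 + 1 = d := by omega
      have h4 : (((d - 1 : ℕ) : ℂ) + 1) = d := by
        have : ((d - 1 + 1 : ℕ) : ℂ) = d := by rw [h3]
        push_cast at this
        exact this
      rw [h3, h4, zero_add] at h1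
      have hdC : (d : ℂ) ≠ 0 := by
        have : d ≠ 0 := by omega
        exact_mod_cast this
      have hJd : ((J : ℂ) + d) ≠ 0 := by
        have : J + d ≠ 0 := by omega
        exact_mod_cast this
      exact absurd h1 (mul_ne_zero (by norm_num) (mul_ne_zero (mul_ne_zero hJd hγ)
        (mul_ne_zero hγ hdC)))
    have hn2 : n = 2 := by omega
    obtain ⟨x, hx⟩ : ∃ x, x = g.coeff 0 := ⟨_, rfl⟩
    obtain ⟨z, hz⟩ : ∃ z, z = g.coeff 1 := ⟨_, rfl⟩
    have hge : g = C z * X + C x := by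
      rw [hx, hz]; exact eq_X_add_C_of_natDegree_le_one (by omega)
    have hz0 : z ≠ 0 := by rw [hz, ← hde]; exact hγ
    have hdg : derivative g = C z := by
      rw [hge]; simp
    have hall : ∀ t : ℂ, FB (s : ℂ) J 2 t (z * t + x) z 0 = 0 := by
      intro t
      have h1 := congrArg (eval t) hode
      rw [hdg, hge] at h1
      simp only [FB, F, derivative_C, eval_add, eval_mul, eval_sub, eval_pow, eval_C, eval_X,
        eval_ofNat, eval_one, eval_zero, hn2, Nat.cast_ofNat] at h1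
      simp only [FB, F]
      exact h1
    have h0 := hall 0
    have h1 := hall 1
    have e0 : x * ((x + J * z) * (x + 2 * (J + 1) * z) + s * (2 * x ^ 2 + J * (J - 1) * z ^ 2 +
        4 * J * x * z + 2 * J * (J + 1) * z ^ 2)) = 0 := by
      simp only [FB, F] at h0
      linear_combination (1 / 8 : ℂ) * h0
    have e1 : (((J : ℂ) + 1) * z ^ 2) * (x + z * (2 * (J + 1) + s * (3 * J + 2))) = 0 := by
      simp only [FB, F] at h0 h1
      linear_combination (1 / 8 : ℂ) * (h1 - h0)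
    have hJ1 : ((J : ℂ) + 1) ≠ 0 := by exact_mod_cast Nat.succ_ne_zero J
    have e2 := (mul_eq_zero.1 e1).resolve_left (mul_ne_zero hJ1 (pow_ne_zero _ hz0))
    obtain ⟨l, hl⟩ : ∃ l : ℝ, l = -(2 * (J + 1) + s * (3 * J + 2)) := ⟨_, rfl⟩
    have hxl : x = l * z := by
      rw [hl]; push_cast; linear_combination e2
    have hJ0 : (0 : ℝ) ≤ J := Nat.cast_nonneg J
    have hl0 : l < -(J / 2 + 1) := by
      rw [hl]; nlinarith
    have hl0' : (l : ℂ) ≠ 0 := by
      have : l ≠ 0 := by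
        have : l < 0 := by linarith
        exact this.ne
      exact_mod_cast this
    have hx0 : x ≠ 0 := by rw [hxl]; exact mul_ne_zero hl0' hz0
    have e3 := (mul_eq_zero.1 e0).resolve_left hx0
    have e4 : ((s : ℂ) * z ^ 2) * ((2 * l + J) * (l - 1)) = 0 := by
      have hl2 : (l : ℂ) = -(2 * (J + 1) + s * (3 * J + 2)) := by rw [hl]; push_cast; ring
      have hs' : (s : ℂ) * (3 * J + 2) = -(l + 2 * (J + 1)) := by rw [hl2]; ring
      rw [hxl] at e3
      have e5 : z ^ 2 * ((l + J) * (l + 2 * (J + 1)) + s * (2 * l ^ 2 + J * (J - 1) +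
        4 * J * l + 2 * J * (J + 1))) = 0 := by linear_combination e3
      linear_combination e5 + z ^ 2 * (l + J) * (-1) * hs'
    have h5 : (2 * l + J) * (l - 1) ≠ 0 := by
      have a1 : 2 * l + J < 0 := by linarith
      have a2 : l - 1 < 0 := by linarith
      exact (mul_pos_of_neg_of_neg a1 a2).ne'
    have h6 : ((2 * (l : ℂ) + J) * (l - 1)) ≠ 0 := by exact_mod_cast h5
    exact absurd e4 (mul_ne_zero (mul_ne_zero hsC (pow_ne_zero _ hz0)) h6)

end poly

end Pool.Agent.H750R2.PLap
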