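import Pool.Agent.H750R2.PLap.Ev
import Pool.Agent.H750R2.PLap.LemB

set_option autoImplicit false

/-! Applications of the initial-form principle. -/

namespace Pool.Agent.H750R2.PLap

open MvPolynomial

/-- derivative of Euler's identity -/
theorem euler_d (w : Fin 3 → ℕ) (n : ℕ) (U : P3) (i : Fin 3) :
    (w 0 : P3) * (X 0 * pderiv i (pderiv 0 (low w n U))) +
      (w 1 : P3) * (X 1 * pderiv i (pderiv 1 (low w n U))) +
      (w 2 : P3) * (X 2 * pderiv i (pderiv 2 (low w n U))) + (w i : P3) * pderiv i (low w n U) =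
      (n : P3) * pderiv i (low w n U) := by
  have h := congrArg (pderiv i) (euler w n U)
  have hc : ∀ a : ℕ, pderiv i (a : P3) = 0 := fun a => Derivation.map_natCast _ _
  simp only [map_add, pderiv_mul, hc, zero_mul, zero_add] at h
  rw [← h]
  fin_cases i
  · simp only [Fin.zero_eta, pderiv_X_self, one_mul]
    rw [pderiv_X_of_ne (i := 0) (j := 1) (by decide), pderiv_X_of_ne (i := 0) (j := 2) (by decide)]
    ring
  · simp only [Fin.mk_one, pderiv_X_self, one_mul]
    rw [pderiv_X_of_ne (i := 1) (j := 0) (by decide), pderiv_X_of_ne (i := 1) (j := 2) (by decide)]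
    ring
  · simp only [Fin.reduceFinMk, pderiv_X_self, one_mul]
    rw [pderiv_X_of_ne (i := 2) (j := 0) (by decide), pderiv_X_of_ne (i := 2) (j := 1) (by decide)]
    ring

theorem ev20 : ev 2 (X 0) = 1 := by rw [ev_X, if_neg (by decide)]
theorem ev21 : ev 2 (X 1) = 1 := by rw [ev_X, if_neg (by decide)]
theorem ev22 : ev 2 (X 2) = Polynomial.X := by rw [ev_X, if_pos rfl]
theorem ev00 : ev 0 (X 0) = Polynomial.X := by rw [ev_X, if_pos rfl]
theorem ev01 : ev 0 (X 1) = 1 := by rw [ev_X, if_neg (by decide)]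
theorem ev02 : ev 0 (X 2) = 1 := by rw [ev_X, if_neg (by decide)]

/-- Euler identities at `(1,1,t)` -/
theorem jets2 (w : Fin 3 → ℕ) (n : ℕ) (U V : P3) (hV : V = low w n U) (i : Fin 3) :
    ((w 0 : Polynomial ℂ) * ev 2 (pderiv 0 V) + (w 1 : Polynomial ℂ) * ev 2 (pderiv 1 V) +
      (w 2 : Polynomial ℂ) * (Polynomial.X * ev 2 (pderiv 2 V)) = (n : Polynomial ℂ) * ev 2 V) ∧
    ((w 0 : Polynomial ℂ) * ev 2 (pderiv i (pderiv 0 V)) +
      (w 1 : Polynomial ℂ) * ev 2 (pderiv i (pderiv 1 V)) +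
      (w 2 : Polynomial ℂ) * (Polynomial.X * ev 2 (pderiv i (pderiv 2 V))) +
      (w i : Polynomial ℂ) * ev 2 (pderiv i V) = (n : Polynomial ℂ) * ev 2 (pderiv i V)) := by
  have E := congrArg (ev 2) (euler w n U)
  have E0 := congrArg (ev 2) (euler_d w n U i)
  simp only [map_add, map_mul, map_natCast, ev20, ev21, ev22, one_mul, ← hV] at E E0
  exact ⟨E, E0⟩

theorem jets0 (w : Fin 3 → ℕ) (n : ℕ) (U V : P3) (hV : V = low w n U) (i : Fin 3) :
    ((w 0 : Polynomial ℂ) * (Polynomial.X * ev 0 (pderiv 0 V)) +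
      (w 1 : Polynomial ℂ) * ev 0 (pderiv 1 V) +
      (w 2 : Polynomial ℂ) * (ev 0 (pderiv 2 V)) = (n : Polynomial ℂ) * ev 0 V) ∧
    ((w 0 : Polynomial ℂ) * (Polynomial.X * ev 0 (pderiv i (pderiv 0 V))) +
      (w 1 : Polynomial ℂ) * ev 0 (pderiv i (pderiv 1 V)) +
      (w 2 : Polynomial ℂ) * (ev 0 (pderiv i (pderiv 2 V))) +
      (w i : Polynomial ℂ) * ev 0 (pderiv i V) = (n : Polynomial ℂ) * ev 0 (pderiv i V)) := by
  have E := congrArg (ev 0) (euler w n U)
  have E0 := congrArg (ev 0) (euler_d w n U i)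
  simp only [map_add, map_mul, map_natCast, ev00, ev01, ev02, one_mul, ← hV] at E E0
  exact ⟨E, E0⟩

theorem beta_ode (s : ℂ) (k : ℕ) (U V : P3) (hU : T s U = 0)
    (hmin : ∀ e ∈ U.support, k ≤ e 0 + e 2) (hVdef : V = low ![1, 0, 1] k U) :
    F2 (Polynomial.C s) (Polynomial.C (k : ℂ) * ev 2 V - Polynomial.X *
        Polynomial.derivative (ev 2 V)) (Polynomial.derivative (ev 2 V))
      (Polynomial.C ((k : ℂ) * (k - 1)) * ev 2 V -
        Polynomial.C (2 * ((k : ℂ) - 1)) * (Polynomial.X * Polynomial.derivative (ev 2 V)) +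
        Polynomial.X ^ 2 * Polynomial.derivative (Polynomial.derivative (ev 2 V)))
      (Polynomial.C ((k : ℂ) - 1) * Polynomial.derivative (ev 2 V) -
        Polynomial.X * Polynomial.derivative (Polynomial.derivative (ev 2 V)))
      (Polynomial.derivative (Polynomial.derivative (ev 2 V))) = 0 := by
  have hwt : ∀ e, wt ![1, 0, 1] e = e 0 + e 2 := by
    intro e; simp [wt]
  have hV := lim_pos s ![1, 0, 1] 2 (by simp) (by norm_num) U hU k
    (fun e he => by rw [hwt]; exact hmin e he)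
  rw [← hVdef] at hV
  have E := (jets2 _ _ _ _ hVdef 0).1
  have E0 := (jets2 _ _ _ _ hVdef 0).2
  have E2 := (jets2 _ _ _ _ hVdef 2).2
  rw [pderiv_comm 2 0] at E2
  have hg : Polynomial.derivative (ev 2 V) = ev 2 (pderiv 2 V) := deriv_ev 2 V
  have hg2 : Polynomial.derivative (Polynomial.derivative (ev 2 V)) =
      ev 2 (pderiv 2 (pderiv 2 V)) := by rw [hg, deriv_ev]
  rw [← hg2] at E2
  rw [← hg] at E2 E
  simp only [Matrix.cons_val_zero, Matrix.cons_val_one, Matrix.cons_val, Nat.cast_one,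
    Nat.cast_zero, one_mul, zero_mul, add_zero] at E E0 E2
  have hode := congrArg (ev 2) hV
  unfold F2 at hode ⊢
  simp only [map_add, map_sub, map_mul, map_pow, map_ofNat, map_one, map_zero, ev_C,
    map_natCast, ← hg2] at hode ⊢
  rw [← hg] at hode
  generalize Polynomial.derivative (Polynomial.derivative (ev 2 V)) = g2 at *
  generalize Polynomial.derivative (ev 2 V) = g1 at *
  generalize (ev 2 V) = g at *
  generalize (ev 2 (pderiv 0 V)) = p at *
  generalize (ev 2 (pderiv 0 (pderiv 0 V))) = A at *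
  generalize (ev 2 (pderiv 0 (pderiv 2 V))) = C at *
  have e0 : p = (k : Polynomial ℂ) * g - Polynomial.X * g1 := by
    linear_combination E
  have e02 : C = ((k : Polynomial ℂ) - 1) * g1 - Polynomial.X * g2 := by
    linear_combination E2
  have e00 : A = (k : Polynomial ℂ) * ((k : Polynomial ℂ) - 1) * g -
      2 * ((k : Polynomial ℂ) - 1) * (Polynomial.X * g1) + Polynomial.X ^ 2 * g2 := by
    rw [e02, e0] at E0
    linear_combination E0
  rw [e0, e02, e00] at hode
  exact hode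

/-- recover the coefficients of a line -/
theorem co_ev (k : Fin 3) (V : P3) (h : ∀ e ∈ V.support, ∀ t ∈ V.support, t k = e k → t = e)
    (e : Fin 3 →₀ ℕ) (he : e ∈ V.support) : (ev k V).coeff (e k) = coeff e V :=
  coeff_ev_of_inj k V e (fun t ht hte => h e he t ht hte)

theorem deg_ev (k : Fin 3) (V : P3) (n : ℕ) (h : ∀ e ∈ V.support, e k ≤ n) :
    (ev k V).natDegree ≤ n := by
  rw [Polynomial.natDegree_le_iff_coeff_eq_zero]
  intro j hj
  rw [coeff_ev]
  apply Finset.sum_eq_zero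
  intro e he
  rw [if_neg]
  have := h e he
  omega

theorem ext3 {a b : Fin 3 →₀ ℕ} (h0 : a 0 = b 0) (h1 : a 1 = b 1) (h2 : a 2 = b 2) : a = b := by
  apply Finsupp.ext
  intro i
  fin_cases i
  · exact h0
  · exact h1
  · exact h2

theorem beta (s : ℝ) (hs : -(1 / 2) < s) (hs0 : s ≠ 0) (m k : ℕ) (hk : 2 ≤ k) (U : P3)
    (hom : U.IsHomogeneous m) (hU : T (s : ℂ) U = 0)
    (hmin : ∀ e ∈ U.support, k ≤ e 0 + e 2) :
    (∀ e ∈ U.support, e 0 + e 2 = k → e 2 = 0) ∨ (∀ e ∈ U.support, e 0 + e 2 = k → e 0 = 0) := by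
  obtain ⟨V, hVdef⟩ : ∃ V, V = low ![1, 0, 1] k U := ⟨_, rfl⟩
  have hode := beta_ode s k U V hU hmin hVdef
  have hwt : ∀ e, wt ![1, 0, 1] e = e 0 + e 2 := by
    intro e; simp [wt]
  have hmem : ∀ e, e ∈ V.support ↔ e ∈ U.support ∧ e 0 + e 2 = k := by
    intro e
    rw [hVdef, mem_low, hwt]
  have hdeg : (ev 2 V).natDegree ≤ k := by
    apply deg_ev
    intro e he
    have := (hmem e).1 he
    omega
  have hco : ∀ e ∈ V.support, (ev 2 V).coeff (e 2) = coeff e V := by
    apply co_ev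
    intro e he t ht hte
    rw [hmem] at ht he
    have h1 := hom_deg hom ht.1
    have h2 := hom_deg hom he.1
    exact ext3 (by omega) (by omega) (by omega)
  rcases twoD s hs hs0 k hk (ev 2 V) hdeg hode with ⟨b, hb⟩ | ⟨a, ha⟩
  · left
    intro e he h
    have h1 := hco e ((hmem e).2 ⟨he, h⟩)
    by_contra h2
    rw [hb, Polynomial.coeff_C, if_neg h2] at h1
    exact (mem_support_iff.mp ((hmem e).2 ⟨he, h⟩)) h1.symm
  · right
    intro e he h
    have h1 := hco e ((hmem e).2 ⟨he, h⟩)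
    by_contra h2
    rw [ha, Polynomial.coeff_C_mul, Polynomial.coeff_X_pow, if_neg (by omega), mul_zero] at h1
    exact (mem_support_iff.mp ((hmem e).2 ⟨he, h⟩)) h1.symm

end Pool.Agent.H750R2.PLap
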