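import Pool.Agent.H750R2.PLap.Limit

set_option autoImplicit false

/-! Dehomogenisation along a variable, and Euler identities. -/

namespace Pool.Agent.H750R2.PLap

open MvPolynomial

/-- set all variables but `k` equal to 1 -/
noncomputable def ev (k : Fin 3) : P3 →ₐ[ℂ] Polynomial ℂ :=
  aeval (fun i => if i = k then Polynomial.X else 1)

theorem ev_X (k i : Fin 3) : ev k (X i) = if i = k then Polynomial.X else 1 := by
  simp [ev]

theorem ev_C (k : Fin 3) (c : ℂ) : ev k (C c) = Polynomial.C c := by
  unfold ev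
  rw [aeval_C, Polynomial.algebraMap_eq]

theorem deriv_ev (k : Fin 3) (V : P3) :
    Polynomial.derivative (ev k V) = ev k (pderiv k V) := by
  induction V using MvPolynomial.induction_on with
  | C a => simp
  | add p q hp hq => simp only [map_add, hp, hq]
  | mul_X p i hp =>
    rw [map_mul, Polynomial.derivative_mul, hp, pderiv_mul, map_add, map_mul, map_mul]
    congr 1
    rw [ev_X, pderiv_X]
    by_cases h : i = k
    · subst h; simp
    · rw [if_neg h, Pi.single_eq_of_ne h]; simp

theorem ev_monomial (k : Fin 3) (s : Fin 3 →₀ ℕ) (c : ℂ) :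
    ev k (monomial s c) = Polynomial.C c * Polynomial.X ^ (s k) := by
  unfold ev
  rw [aeval_monomial, Polynomial.algebraMap_eq, Finsupp.prod_fintype _ _ (by simp)]
  congr 1
  rw [Finset.prod_eq_single k]
  · simp
  · intro b _ hb
    simp [hb]
  · simp

theorem coeff_ev (k : Fin 3) (V : P3) (j : ℕ) :
    (ev k V).coeff j = ∑ s ∈ V.support, if s k = j then coeff s V else 0 := by
  conv_lhs => rw [V.as_sum]
  rw [map_sum, Polynomial.finsetSum_coeff]
  apply Finset.sum_congr rfl
  intro s _
  rw [ev_monomial, Polynomial.coeff_C_mul, Polynomial.coeff_X_pow]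
  by_cases h : s k = j
  · simp [h]
  · simp [h, Ne.symm h]

theorem coeff_ev_of_inj (k : Fin 3) (V : P3) (e : Fin 3 →₀ ℕ)
    (h : ∀ s ∈ V.support, s k = e k → s = e) : (ev k V).coeff (e k) = coeff e V := by
  rw [coeff_ev]
  by_cases he : e ∈ V.support
  · rw [Finset.sum_eq_single e]
    · simp
    · intro s hs hse
      rw [if_neg]
      intro h'
      exact hse (h s hs h')
    · intro h'; exact absurd he h'
  · rw [notMem_support_iff.mp he]
    apply Finset.sum_eq_zero
    intro s hs
    rw [if_neg]
    intro h'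
    exact he (h s hs h' ▸ hs)

/-- Euler's identity for a weight -/
theorem euler (w : Fin 3 → ℕ) (n : ℕ) (U : P3) :
    (w 0 : P3) * (X 0 * pderiv 0 (low w n U)) + (w 1 : P3) * (X 1 * pderiv 1 (low w n U)) +
      (w 2 : P3) * (X 2 * pderiv 2 (low w n U)) = (n : P3) * low w n U := by
  have h := (weightedHomogeneousComponent_isWeightedHomogeneous (w := w) n U).sum_weight_X_mul_pderiv
  rw [Fin.sum_univ_three] at h
  simp only [nsmul_eq_mul] at h
  exact h

theorem mem_low {w : Fin 3 → ℕ} {n : ℕ} {U : P3} {s : Fin 3 →₀ ℕ} :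
    s ∈ (low w n U).support ↔ s ∈ U.support ∧ wt w s = n := by
  rw [mem_support_iff, coeff_low, mem_support_iff]
  by_cases h : wt w s = n <;> simp [h]

theorem low_hom {w : Fin 3 → ℕ} {n m : ℕ} {U : P3} (h : U.IsHomogeneous m) :
    (low w n U).IsHomogeneous m := by
  intro s hs
  apply h
  rw [coeff_low] at hs
  by_cases h' : wt w s = n
  · rwa [if_pos h'] at hs
  · rw [if_neg h'] at hs; exact absurd rfl hs

theorem hom_deg {m : ℕ} {U : P3} (h : U.IsHomogeneous m) {s : Fin 3 →₀ ℕ} (hs : s ∈ U.support) :
    s 0 + s 1 + s 2 = m := by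
  have := h (mem_support_iff.mp hs)
  rw [Finsupp.weight_apply, Finsupp.sum_fintype _ _ (by simp), Fin.sum_univ_three] at this
  simpa using this

end Pool.Agent.H750R2.PLap
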