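import Pool.Agent.H750R2.PLap.Apply

set_option autoImplicit false

/-! The extreme line `a - c = const`. -/

namespace Pool.Agent.H750R2.PLap

open MvPolynomial

theorem low_self {m : ℕ} {V : P3} (h : V.IsHomogeneous m) : V = low ![1, 1, 1] m V := by
  apply MvPolynomial.ext
  intro s
  rw [coeff_low]
  by_cases hs : s ∈ V.support
  · have := hom_deg h hs
    rw [if_pos]
    simp [wt]
    exact this
  · rw [notMem_support_iff.mp hs]
    simp

theorem gamma_ode (s : ℂ) (m n J : ℕ) (hm : m = n + J) (U V : P3) (hom : U.IsHomogeneous m)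
    (hU : T s U = 0) (hmin : ∀ e ∈ U.support, n ≤ e 1 + 2 * e 2)
    (hVdef : V = low ![0, 1, 2] n U) :
    FB (Polynomial.C s) (Polynomial.C (J : ℂ)) (Polynomial.C (n : ℂ)) Polynomial.X (ev 2 V)
      (Polynomial.derivative (ev 2 V))
      (Polynomial.derivative (Polynomial.derivative (ev 2 V))) = 0 := by
  have hwt : ∀ e, wt ![0, 1, 2] e = e 1 + 2 * e 2 := by
    intro e; simp [wt]
  have hV := lim_zero s ![0, 1, 2] (by simp) U hU n
    (fun e he => by rw [hwt]; exact hmin e he)
  have homV : V.IsHomogeneous m := by rw [hVdef]; exact low_hom hom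
  rw [← hVdef] at hV
  have L := (jets2 _ _ _ _ hVdef 0).1
  have L0 := (jets2 _ _ _ _ hVdef 0).2
  have L1 := (jets2 _ _ _ _ hVdef 1).2
  have L2 := (jets2 _ _ _ _ hVdef 2).2
  have hVs := low_self homV
  have H := (jets2 _ _ _ _ hVs 0).1
  have H0 := (jets2 _ _ _ _ hVs 0).2
  have H1 := (jets2 _ _ _ _ hVs 1).2
  have H2 := (jets2 _ _ _ _ hVs 2).2
  rw [pderiv_comm 2 0, pderiv_comm 2 1] at L2 H2
  rw [pderiv_comm 1 0] at L1 H1
  have hg : Polynomial.derivative (ev 2 V) = ev 2 (pderiv 2 V) := deriv_ev 2 V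
  have hg2 : Polynomial.derivative (Polynomial.derivative (ev 2 V)) =
      ev 2 (pderiv 2 (pderiv 2 V)) := by rw [hg, deriv_ev]
  rw [← hg2] at L2 H2
  rw [← hg] at L2 L H H2
  simp only [Matrix.cons_val_zero, Matrix.cons_val_one, Matrix.cons_val, Nat.cast_one,
    Nat.cast_zero, one_mul, zero_mul, add_zero, Nat.cast_ofNat, zero_add] at L L0 L1 L2 H H0 H1 H2
  have hode := congrArg (ev 2) hV
  unfold T F at hode
  unfold FB F
  simp only [map_add, map_sub, map_mul, map_pow, map_ofNat, map_one, map_zero, ev_C,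
    map_natCast, ← hg2] at hode ⊢
  rw [← hg] at hode
  generalize Polynomial.derivative (Polynomial.derivative (ev 2 V)) = g2 at *
  generalize Polynomial.derivative (ev 2 V) = g1 at *
  generalize (ev 2 V) = g at *
  generalize (ev 2 (pderiv 0 V)) = p at *
  generalize (ev 2 (pderiv 1 V)) = q at *
  generalize (ev 2 (pderiv 0 (pderiv 0 V))) = A at *
  generalize (ev 2 (pderiv 0 (pderiv 1 V))) = B at *
  generalize (ev 2 (pderiv 0 (pderiv 2 V))) = C at *
  generalize (ev 2 (pderiv 1 (pderiv 1 V))) = D at *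
  generalize (ev 2 (pderiv 1 (pderiv 2 V))) = E at *
  have hmc : (m : Polynomial ℂ) = n + J := by rw [hm]; push_cast; ring
  rw [hmc] at H H0 H1 H2
  generalize (n : Polynomial ℂ) = N at *
  generalize (J : Polynomial ℂ) = K at *
  generalize (Polynomial.X : Polynomial ℂ) = t at *
  have eq : q = N * g - 2 * (t * g1) := by linear_combination L
  have ep : p = K * g + t * g1 := by
    linear_combination H - L
  have eE : E = (N - 2) * g1 - 2 * (t * g2) := by linear_combination L2
  have eC : C = (K + 1) * g1 + t * g2 := by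
    linear_combination H2 - L2
  have eB : B = K * N * g + (N - 2 * K - 2) * (t * g1) - 2 * (t ^ 2 * g2) := by
    rw [eC, ep] at L0
    linear_combination L0
  have eD : D = N * (N - 1) * g - 2 * (2 * N - 3) * (t * g1) + 4 * (t ^ 2 * g2) := by
    rw [eE, eq] at L1
    linear_combination L1
  have eA : A = K * (K - 1) * g + 2 * K * (t * g1) + t ^ 2 * g2 := by
    rw [eC, eB, ep] at H0
    linear_combination H0
  rw [eq, ep, eE, eC, eB, eD, eA] at hode
  exact hode

theorem gamma (s : ℝ) (hs : -(1 / 2) < s) (hs0 : s ≠ 0) (m n : ℕ) (hn : 2 ≤ n) (hnm : n ≤ m)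
    (U : P3) (hom : U.IsHomogeneous m) (hU : T (s : ℂ) U = 0)
    (hmin : ∀ e ∈ U.support, n ≤ e 1 + 2 * e 2)
    (hex : ∃ e ∈ U.support, e 1 + 2 * e 2 = n) : False := by
  obtain ⟨V, hVdef⟩ : ∃ V, V = low ![0, 1, 2] n U := ⟨_, rfl⟩
  have hode := gamma_ode s m n (m - n) (by omega) U V hom hU hmin hVdef
  have hwt : ∀ e, wt ![0, 1, 2] e = e 1 + 2 * e 2 := by
    intro e; simp [wt]
  have hmem : ∀ e, e ∈ V.support ↔ e ∈ U.support ∧ e 1 + 2 * e 2 = n := by
    intro e
    rw [hVdef, mem_low, hwt]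
  have hco : ∀ e ∈ V.support, (ev 2 V).coeff (e 2) = coeff e V := by
    apply co_ev
    intro e he t ht hte
    rw [hmem] at ht he
    have h1 := hom_deg hom ht.1
    have h2 := hom_deg hom he.1
    exact ext3 (by omega) (by omega) (by omega)
  have hg : ev 2 V ≠ 0 := by
    obtain ⟨e, he, h⟩ := hex
    intro h0
    have h1 := hco e ((hmem e).2 ⟨he, h⟩)
    rw [h0, Polynomial.coeff_zero] at h1
    exact (mem_support_iff.mp ((hmem e).2 ⟨he, h⟩)) h1.symm
  have hdeg : (ev 2 V).natDegree ≤ n / 2 := by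
    apply deg_ev
    intro e he
    have := (hmem e).1 he
    omega
  exact lemB s (m - n) n (ev 2 V) hs hs0 hn hg (by omega) hode

end Pool.Agent.H750R2.PLap
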