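import Pool.Agent.H750R2.PLap.Basic
import Pool.Agent.H750R2.PLap.TwoD

set_option autoImplicit false

/-! Initial forms (weighted) of solutions of the null p-Laplace identity. -/

namespace Pool.Agent.H750R2.PLap

open MvPolynomial

/-- weighted degree of an exponent -/
def wt (w : Fin 3 → ℕ) (s : Fin 3 →₀ ℕ) : ℕ := w 0 * s 0 + w 1 * s 1 + w 2 * s 2

theorem weight_eq_wt (w : Fin 3 → ℕ) (s : Fin 3 →₀ ℕ) : Finsupp.weight w s = wt w s := by
  rw [Finsupp.weight_apply, Finsupp.sum_fintype _ _ (by simp), Fin.sum_univ_three, wt]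
  simp only [smul_eq_mul]
  ring

/-- the initial form -/
noncomputable def low (w : Fin 3 → ℕ) (n : ℕ) (U : P3) : P3 := weightedHomogeneousComponent w n U

theorem coeff_low (w : Fin 3 → ℕ) (n : ℕ) (U : P3) (s : Fin 3 →₀ ℕ) :
    coeff s (low w n U) = if wt w s = n then coeff s U else 0 := by
  unfold low
  rw [coeff_weightedHomogeneousComponent, weight_eq_wt]

/-- scaling at a point -/
noncomputable def Phi (w : Fin 3 → ℕ) (x : Fin 3 → ℂ) : P3 →ₐ[ℂ] Polynomial ℂ :=
  aeval (fun i => Polynomial.X ^ (w i) * Polynomial.C (x i))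

theorem Phi_monomial (w : Fin 3 → ℕ) (x : Fin 3 → ℂ) (s : Fin 3 →₀ ℕ) (c : ℂ) :
    Phi w x (monomial s c) =
      Polynomial.X ^ (wt w s) * Polynomial.C (eval x (monomial s c)) := by
  unfold Phi wt
  rw [aeval_monomial, eval_monomial, Finsupp.prod_fintype _ _ (by simp),
    Finsupp.prod_fintype _ _ (by simp), Fin.prod_univ_three,
    Fin.prod_univ_three, Polynomial.algebraMap_eq]
  simp only [map_mul, map_pow, mul_pow, ← pow_mul, pow_add]
  ring

theorem Phi_pd (w : Fin 3 → ℕ) (x : Fin 3 → ℂ) (s : Fin 3 →₀ ℕ) (c : ℂ) (i : Fin 3) :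
    Polynomial.X ^ (w i) * Phi w x (pderiv i (monomial s c)) =
      Polynomial.X ^ (wt w s) * Polynomial.C (eval x (pderiv i (monomial s c))) := by
  rw [pderiv_monomial]
  by_cases h : s i = 0
  · simp [h]
  · rw [Phi_monomial, ← mul_assoc, ← pow_add]
    congr 2
    have h1 : s - Finsupp.single i 1 + Finsupp.single i 1 = s := by
      apply Finsupp.ext
      intro j
      by_cases hj : j = i
      · subst hj; simp; omega
      · simp [Ne.symm hj]
    have h2 : wt w s = wt w (s - Finsupp.single i 1) + w i := by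
      conv_lhs => rw [← h1]
      rw [← weight_eq_wt, ← weight_eq_wt, map_add]
      congr 1
      rw [Finsupp.weight_apply]
      simp
    omega

theorem Phi_pd2 (w : Fin 3 → ℕ) (x : Fin 3 → ℂ) (s : Fin 3 →₀ ℕ) (c : ℂ) (i j : Fin 3) :
    Polynomial.X ^ (w i + w j) * Phi w x (pderiv i (pderiv j (monomial s c))) =
      Polynomial.X ^ (wt w s) * Polynomial.C (eval x (pderiv i (pderiv j (monomial s c)))) := by
  rw [pderiv_monomial]
  by_cases h : s j = 0
  · simp [h]
  · rw [pow_add, mul_right_comm, Phi_pd, mul_right_comm, ← pow_add]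
    congr 2
    have h1 : s - Finsupp.single j 1 + Finsupp.single j 1 = s := by
      apply Finsupp.ext
      intro k
      by_cases hk : k = j
      · subst hk; simp; omega
      · simp [Ne.symm hk]
    have h2 : wt w s = wt w (s - Finsupp.single j 1) + w j := by
      conv_lhs => rw [← h1]
      rw [← weight_eq_wt, ← weight_eq_wt, map_add]
      congr 1
      rw [Finsupp.weight_apply]
      simp
    omega

/-- the scaling expansion of a linear operator -/
theorem scale (w : Fin 3 → ℕ) (x : Fin 3 → ℂ) (U : P3) (n : ℕ)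
    (hn : ∀ s ∈ U.support, n ≤ wt w s) (L : P3 →ₗ[ℂ] P3) (d : ℕ)
    (hL : ∀ s c, Polynomial.X ^ d * Phi w x (L (monomial s c)) =
      Polynomial.X ^ (wt w s) * Polynomial.C (eval x (L (monomial s c)))) :
    ∃ V : Polynomial ℂ, Polynomial.X ^ d * Phi w x (L U) = Polynomial.X ^ n * V ∧
      V.eval 0 = eval x (L (low w n U)) := by
  refine ⟨∑ s ∈ U.support, Polynomial.X ^ (wt w s - n) *
    Polynomial.C (eval x (L (monomial s (coeff s U)))), ?_, ?_⟩
  · conv_lhs => rw [U.as_sum]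
    rw [map_sum, map_sum, Finset.mul_sum, Finset.mul_sum]
    apply Finset.sum_congr rfl
    intro s hs
    rw [hL, ← mul_assoc, ← pow_add]
    congr 2
    have := hn s hs
    omega
  · unfold low
    rw [weightedHomogeneousComponent_apply, Polynomial.eval_finsetSum, map_sum, map_sum,
      Finset.sum_filter]
    apply Finset.sum_congr rfl
    intro s hs
    rw [weight_eq_wt]
    have := hn s hs
    by_cases h : wt w s = n
    · rw [if_pos h, h]
      simp
    · rw [if_neg h]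
      simp only [Polynomial.eval_mul, Polynomial.eval_pow, Polynomial.eval_X]
      rw [zero_pow (by omega)]
      simp

/-- The jets of the initial form satisfy the truncated identity. -/
theorem scaled (s : ℂ) (w : Fin 3 → ℕ) (W : ℕ) (hW : w 0 + w 2 = 2 * w 1 + W) (x : Fin 3 → ℂ)
    (U : P3) (hU : T s U = 0) (n : ℕ) (hn : ∀ e ∈ U.support, n ≤ wt w e) :
    ∃ p q r A B C D E G : Polynomial ℂ,
      (p.eval 0 = eval x (pderiv 0 (low w n U)) ∧ q.eval 0 = eval x (pderiv 1 (low w n U)) ∧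
       r.eval 0 = eval x (pderiv 2 (low w n U)) ∧
       A.eval 0 = eval x (pderiv 0 (pderiv 0 (low w n U))) ∧
       B.eval 0 = eval x (pderiv 0 (pderiv 1 (low w n U))) ∧
       C.eval 0 = eval x (pderiv 0 (pderiv 2 (low w n U))) ∧
       D.eval 0 = eval x (pderiv 1 (pderiv 1 (low w n U))) ∧
       E.eval 0 = eval x (pderiv 1 (pderiv 2 (low w n U))) ∧
       G.eval 0 = eval x (pderiv 2 (pderiv 2 (low w n U)))) ∧
      F2 (Polynomial.C s) p r A C G +
        Polynomial.X ^ W * (4 * (p * r * D) + 4 * (q ^ 2 * C) +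
          8 * (Polynomial.C s) * (q * r * B + q * p * E)) +
        (Polynomial.X ^ W) ^ 2 * ((1 + 2 * Polynomial.C s) * (q ^ 2 * D)) = 0 := by
  have h1 : ∀ i : Fin 3, ∃ V : Polynomial ℂ, Polynomial.X ^ (w i) *
      Phi w x (pderiv i U) = Polynomial.X ^ n * V ∧
      V.eval 0 = eval x (pderiv i (low w n U)) := fun i =>
    scale w x U n hn (pderiv i).toLinearMap (w i) (fun e c => Phi_pd w x e c i)
  obtain ⟨p, hp, hp0⟩ := h1 0
  obtain ⟨q, hq, hq0⟩ := h1 1
  obtain ⟨r, hr, hr0⟩ := h1 2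
  have h2 : ∀ i j : Fin 3, ∃ V : Polynomial ℂ, Polynomial.X ^ (w i + w j) *
      Phi w x (pderiv i (pderiv j U)) = Polynomial.X ^ n * V ∧
      V.eval 0 = eval x (pderiv i (pderiv j (low w n U))) := fun i j =>
    scale w x U n hn ((pderiv i).toLinearMap.comp (pderiv j).toLinearMap) (w i + w j)
      (fun e c => Phi_pd2 w x e c i j)
  obtain ⟨A, hA, hA0⟩ := h2 0 0
  obtain ⟨B, hB, hB0⟩ := h2 0 1
  obtain ⟨C, hC, hC0⟩ := h2 0 2
  obtain ⟨D, hD, hD0⟩ := h2 1 1
  obtain ⟨E, hE, hE0⟩ := h2 1 2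
  obtain ⟨G, hG, hG0⟩ := h2 2 2
  refine ⟨p, q, r, A, B, C, D, E, G, ⟨hp0, hq0, hr0, hA0, hB0, hC0, hD0, hE0, hG0⟩, ?_⟩
  have hT : Phi w x (T s U) = 0 := by rw [hU, map_zero]
  have hC' : Phi w x (MvPolynomial.C s) = Polynomial.C s := by
    unfold Phi
    rw [aeval_C, Polynomial.algebraMap_eq]
  unfold T F at hT
  simp only [map_add, map_mul, map_pow, map_ofNat, hC'] at hT
  have hPP : (Polynomial.X ^ w 0 * Polynomial.X ^ w 2 : Polynomial ℂ) =
      (Polynomial.X ^ w 1) ^ 2 * Polynomial.X ^ W := by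
    rw [← pow_add, hW, pow_add, ← pow_mul, mul_comm 2 (w 1)]
  rw [pow_add] at hA hB hC hD hE hG
  have hne : (Polynomial.X ^ n : Polynomial ℂ) ^ 3 ≠ 0 :=
    pow_ne_zero _ (pow_ne_zero _ Polynomial.X_ne_zero)
  apply mul_left_cancel₀ hne
  generalize (Polynomial.X ^ n : Polynomial ℂ) = Xn at *
  generalize (Polynomial.X ^ W : Polynomial ℂ) = XW at *
  generalize (Polynomial.X ^ w 0 : Polynomial ℂ) = P0 at *
  generalize (Polynomial.X ^ w 1 : Polynomial ℂ) = P1 at *
  generalize (Polynomial.X ^ w 2 : Polynomial ℂ) = P2 at *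
  generalize Phi w x (pderiv 0 U) = a at *
  generalize Phi w x (pderiv 1 U) = b at *
  generalize Phi w x (pderiv 2 U) = c at *
  generalize Phi w x (pderiv 0 (pderiv 0 U)) = dA at *
  generalize Phi w x (pderiv 0 (pderiv 1 U)) = dB at *
  generalize Phi w x (pderiv 0 (pderiv 2 U)) = dC at *
  generalize Phi w x (pderiv 1 (pderiv 1 U)) = dD at *
  generalize Phi w x (pderiv 1 (pderiv 2 U)) = dE at *
  generalize Phi w x (pderiv 2 (pderiv 2 U)) = dG at *
  generalize Polynomial.C s = S at *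
  have e1 : Xn ^ 3 * (F2 S p r A C G + XW * (4 * (p * r * D) + 4 * (q ^ 2 * C) +
          8 * S * (q * r * B + q * p * E)) + XW ^ 2 * ((1 + 2 * S) * (q ^ 2 * D))) =
      F2 S (Xn * p) (Xn * r) (Xn * A) (Xn * C) (Xn * G) +
        XW * (4 * ((Xn * p) * (Xn * r) * (Xn * D)) + 4 * ((Xn * q) ^ 2 * (Xn * C)) +
          8 * S * ((Xn * q) * (Xn * r) * (Xn * B) + (Xn * q) * (Xn * p) * (Xn * E))) +
        XW ^ 2 * ((1 + 2 * S) * ((Xn * q) ^ 2 * (Xn * D))) := by
    unfold F2
    ring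
  rw [e1, ← hp, ← hq, ← hr, ← hA, ← hB, ← hC, ← hD, ← hE, ← hG, mul_zero]
  unfold F2
  linear_combination (P0 * P2) ^ 2 * hT -
    (P0 * P2 * (4 * (a * c * dD) + 4 * (b ^ 2 * dC) + 8 * S * (b * c * dB + b * a * dE)) +
      (XW * P1 ^ 2 + P0 * P2) * ((1 + 2 * S) * (b ^ 2 * dD))) * hPP

/-- the case of positive gap -/
theorem lim_pos (s : ℂ) (w : Fin 3 → ℕ) (W : ℕ) (hW : w 0 + w 2 = 2 * w 1 + W) (hW0 : 0 < W)
    (U : P3) (hU : T s U = 0) (n : ℕ) (hn : ∀ e ∈ U.support, n ≤ wt w e) :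
    F2 (C s) (pderiv 0 (low w n U)) (pderiv 2 (low w n U)) (pderiv 0 (pderiv 0 (low w n U)))
      (pderiv 0 (pderiv 2 (low w n U))) (pderiv 2 (pderiv 2 (low w n U))) = 0 := by
  apply MvPolynomial.funext
  intro x
  obtain ⟨p, q, r, A, B, C, D, E, G, ⟨hp, hq, hr, hA, hB, hC, hD, hE, hG⟩, h⟩ :=
    scaled s w W hW x U hU n hn
  have h' := congrArg (Polynomial.eval 0) h
  unfold F2 at h' ⊢
  simp only [Polynomial.eval_add, Polynomial.eval_mul, Polynomial.eval_pow, Polynomial.eval_X,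
    Polynomial.eval_C, Polynomial.eval_ofNat, Polynomial.eval_one, Polynomial.eval_zero,
    zero_pow hW0.ne', hp, hq, hr, hA, hB, hC, hD, hE, hG] at h'
  simp only [map_add, map_mul, map_pow, map_ofNat, eval_C, map_one, map_zero]
  linear_combination h'

/-- the case of zero gap -/
theorem lim_zero (s : ℂ) (w : Fin 3 → ℕ) (hW : w 0 + w 2 = 2 * w 1)
    (U : P3) (hU : T s U = 0) (n : ℕ) (hn : ∀ e ∈ U.support, n ≤ wt w e) :
    T s (low w n U) = 0 := by
  apply MvPolynomial.funext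
  intro x
  obtain ⟨p, q, r, A, B, C, D, E, G, ⟨hp, hq, hr, hA, hB, hC, hD, hE, hG⟩, h⟩ :=
    scaled s w 0 hW x U hU n hn
  have h' := congrArg (Polynomial.eval 0) h
  unfold F2 at h'
  simp only [Polynomial.eval_add, Polynomial.eval_mul, Polynomial.eval_pow, Polynomial.eval_X,
    Polynomial.eval_C, Polynomial.eval_ofNat, Polynomial.eval_one, Polynomial.eval_zero,
    pow_zero, hp, hq, hr, hA, hB, hC, hD, hE, hG] at h'
  unfold T F
  simp only [map_add, map_mul, map_pow, map_ofNat, eval_C, map_one, map_zero]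
  linear_combination h'

end Pool.Agent.H750R2.PLap
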