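import Pool.Agent.H750R2.PLap.ThmB

set_option autoImplicit false
set_option linter.unusedSimpArgs false

/-! From real solutions to null coordinates. -/

namespace Pool.Agent.H750R2.PLap

open MvPolynomial

/-- Euclidean to null coordinates -/
noncomputable def N : P3 →ₐ[ℂ] P3 :=
  aeval ![C (1 / 2) * (X 0 + X 2), C (-Complex.I / 2) * (X 0 - X 2), X 1]

/-- null to Euclidean coordinates -/
noncomputable def M : P3 →ₐ[ℂ] P3 :=
  aeval ![X 0 + C Complex.I * X 1, X 2, X 0 - C Complex.I * X 1]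

theorem M_N (V : P3) : M (N V) = V := by
  have hI : (C Complex.I : P3) * C Complex.I = -1 := by
    rw [← C_mul, Complex.I_mul_I, map_neg, map_one]
  have h2 : (C (1 / 2) : P3) * 2 = 1 := by
    rw [← map_ofNat C 2, ← C_mul]; norm_num
  have h3 : (C (-Complex.I / 2) : P3) = - (C Complex.I * C (1 / 2)) := by
    rw [← C_mul, ← C_neg]; congr 1; ring
  have : M.comp N = AlgHom.id ℂ P3 := by
    apply MvPolynomial.algHom_ext
    intro i
    fin_cases i
    · simp only [M, N, AlgHom.comp_apply, aeval_X, AlgHom.id_apply, Matrix.cons_val_zero,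
        Fin.zero_eta, map_sub, map_mul, map_add, aeval_C, MvPolynomial.algebraMap_eq,
        Matrix.cons_val]
      linear_combination X 0 * h2
    · simp only [M, N, AlgHom.comp_apply, aeval_X, AlgHom.id_apply, Matrix.cons_val_zero,
        Fin.mk_one, map_sub, map_mul, map_add, aeval_C, MvPolynomial.algebraMap_eq,
        Matrix.cons_val, Matrix.cons_val_one]
      rw [h3]
      linear_combination X 1 * h2 - X 1 * C (1 / 2) * 2 * hI
    · simp [M, N]
  exact DFunLike.congr_fun this V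

theorem N_M (V : P3) : N (M V) = V := by
  have hI : (C Complex.I : P3) * C Complex.I = -1 := by
    rw [← C_mul, Complex.I_mul_I, map_neg, map_one]
  have h2 : (C (1 / 2) : P3) * 2 = 1 := by
    rw [← map_ofNat C 2, ← C_mul]; norm_num
  have h3 : (C (-Complex.I / 2) : P3) = - (C Complex.I * C (1 / 2)) := by
    rw [← C_mul, ← C_neg]; congr 1; ring
  have : N.comp M = AlgHom.id ℂ P3 := by
    apply MvPolynomial.algHom_ext
    intro i
    fin_cases i
    · simp only [M, N, AlgHom.comp_apply, aeval_X, AlgHom.id_apply, Matrix.cons_val_zero,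
        Fin.zero_eta, map_sub, map_mul, map_add, aeval_C, MvPolynomial.algebraMap_eq,
        Matrix.cons_val, Matrix.cons_val_one, h3]
      linear_combination X 0 * h2 - (X 0 - X 2) * C (1 / 2) * hI
    · simp [M, N]
    · simp only [M, N, AlgHom.comp_apply, aeval_X, AlgHom.id_apply, Matrix.cons_val_zero,
        Fin.reduceFinMk, map_sub, map_mul, map_add, aeval_C, MvPolynomial.algebraMap_eq,
        Matrix.cons_val, Matrix.cons_val_one, h3]
      linear_combination X 2 * h2 + (X 0 - X 2) * C (1 / 2) * hI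
  exact DFunLike.congr_fun this V

theorem pd0_N (V : P3) : pderiv 0 (N V) = C (1 / 2) * N (pderiv 0 V) +
    C (-Complex.I / 2) * N (pderiv 1 V) := by
  unfold N
  rw [pderiv_aeval, Fin.sum_univ_three]
  simp [pderiv_X, Pi.single_apply, pderiv_mul]
  ring

theorem pd1_N (V : P3) : pderiv 1 (N V) = N (pderiv 2 V) := by
  unfold N
  rw [pderiv_aeval, Fin.sum_univ_three]
  simp [pderiv_X, Pi.single_apply, pderiv_mul]

theorem pd2_N (V : P3) : pderiv 2 (N V) = C (1 / 2) * N (pderiv 0 V) -
    C (-Complex.I / 2) * N (pderiv 1 V) := by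
  unfold N
  rw [pderiv_aeval, Fin.sum_univ_three]
  simp [pderiv_X, Pi.single_apply, pderiv_mul]
  ring

theorem F_null (s a b c V00 V01 V02 V11 V12 V22 : ℂ) :
    F s (1 / 2 * a + -Complex.I / 2 * b) c (1 / 2 * a - -Complex.I / 2 * b)
      (1 / 2 * (1 / 2 * V00 + -Complex.I / 2 * V01) + -Complex.I / 2 * (1 / 2 * V01 +
        -Complex.I / 2 * V11))
      (1 / 2 * V02 + -Complex.I / 2 * V12)
      (1 / 2 * (1 / 2 * V00 + -Complex.I / 2 * V01) - -Complex.I / 2 * (1 / 2 * V01 +
        -Complex.I / 2 * V11)) V22 (1 / 2 * V02 - -Complex.I / 2 * V12)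
      (1 / 2 * (1 / 2 * V00 - -Complex.I / 2 * V01) - -Complex.I / 2 * (1 / 2 * V01 -
        -Complex.I / 2 * V11)) =
    (a ^ 2 + b ^ 2 + c ^ 2) * (V00 + V11 + V22) + 2 * s * (a * a * V00 + a * b * V01 + a * c * V02 +
      (b * a * V01 + b * b * V11 + b * c * V12) + (c * a * V02 + c * b * V12 + c * c * V22)) := by
  unfold F
  have h2 := Complex.I_sq
  have h3 : Complex.I ^ 3 = -Complex.I := Complex.I_pow_three
  have h4 : Complex.I ^ 4 = 1 := Complex.I_pow_four
  ring_nf
  simp only [h2, h3, h4]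
  ring

/-- the expanded p-Laplace expression with `s₂ = p - 2` -/
noncomputable def Lg {R : Type*} [CommRing R] (s₂ : R) (V : MvPolynomial (Fin 3) R) :
    MvPolynomial (Fin 3) R :=
  (∑ i, pderiv i V ^ 2) * (∑ i, pderiv i (pderiv i V)) +
    C s₂ * ∑ i, ∑ j, pderiv i V * pderiv j V * pderiv i (pderiv j V)

theorem T_N (s : ℂ) (V : P3) : T s (N V) = N (Lg (2 * s) V) := by
  have hN : N (C s) = C s := by simp [N, MvPolynomial.algebraMap_eq]
  apply MvPolynomial.funext
  intro x
  have h := F_null s (eval x (N (pderiv 0 V))) (eval x (N (pderiv 1 V))) (eval x (N (pderiv 2 V)))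
    (eval x (N (pderiv 0 (pderiv 0 V)))) (eval x (N (pderiv 0 (pderiv 1 V))))
    (eval x (N (pderiv 0 (pderiv 2 V)))) (eval x (N (pderiv 1 (pderiv 1 V))))
    (eval x (N (pderiv 1 (pderiv 2 V)))) (eval x (N (pderiv 2 (pderiv 2 V))))
  unfold T Lg
  unfold F at h ⊢
  simp only [Fin.sum_univ_three]
  simp only [pd0_N, pd1_N, pd2_N, map_add, map_sub, pderiv_C_mul]
  simp only [map_mul, map_pow, map_ofNat, map_add, map_sub, hN, eval_C]
  rw [pderiv_comm 1 0 V, pderiv_comm 2 0 V, pderiv_comm 2 1 V]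
  linear_combination h

theorem map_Lg {R S : Type*} [CommRing R] [CommRing S] (f : R →+* S) (s₂ : R)
    (V : MvPolynomial (Fin 3) R) : map f (Lg s₂ V) = Lg (f s₂) (map f V) := by
  unfold Lg
  simp only [map_add, map_mul, map_sum, map_pow, map_C, pderiv_map]

theorem hom_N {U : P3} {m : ℕ} (h : U.IsHomogeneous m) : (N U).IsHomogeneous m := by
  have h0 : (X 0 : P3).IsHomogeneous 1 := isHomogeneous_X _ _
  have h1 : (X 1 : P3).IsHomogeneous 1 := isHomogeneous_X _ _
  have h2 : (X 2 : P3).IsHomogeneous 1 := isHomogeneous_X _ _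
  have hc : ∀ (c : ℂ) (p : P3), p.IsHomogeneous 1 → (C c * p : P3).IsHomogeneous 1 := by
    intro c p hp
    have := (isHomogeneous_C (Fin 3) c).mul hp
    rwa [zero_add] at this
  have key : ∀ i, ((![C (1 / 2) * (X 0 + X 2), C (-Complex.I / 2) * (X 0 - X 2), X 1] :
      Fin 3 → P3) i).IsHomogeneous 1 := by
    intro i
    fin_cases i
    · exact hc _ _ (h0.add h2)
    · exact hc _ _ (h0.sub h2)
    · exact h1
  have := h.aeval _ key
  rw [one_mul] at this
  exact this

theorem M_lin (α β γ : ℂ) : M (lin α β γ) =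
    C (α + γ) * X 0 + C (Complex.I * (α - γ)) * X 1 + C β * X 2 := by
  simp [M, lin, MvPolynomial.algebraMap_eq]
  ring

theorem conj_M_lin (α β γ : ℂ) : map (starRingEnd ℂ) (M (lin α β γ)) =
    M (lin (starRingEnd ℂ γ) (starRingEnd ℂ β) (starRingEnd ℂ α)) := by
  rw [M_lin, M_lin]
  simp only [map_add, map_mul, map_C, map_X, map_sub, Complex.conj_I, map_neg]
  ring

/-- no real homogeneous polynomial solutions in three variables -/
theorem real_case (p : ℝ) (hp : 1 < p) (hp2 : p ≠ 2) (m : ℕ) (hm : 2 ≤ m)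
    (u : MvPolynomial (Fin 3) ℝ) (hu : u ≠ 0) (hom : u.IsHomogeneous m)
    (h : Lg (p - 2) u = 0) : False := by
  obtain ⟨V, hV⟩ : ∃ V : P3, V = map (algebraMap ℝ ℂ) u := ⟨_, rfl⟩
  have hV0 : V ≠ 0 := by
    rw [hV]
    intro h0
    apply hu
    apply MvPolynomial.map_injective (algebraMap ℝ ℂ) (algebraMap ℝ ℂ).injective
    rw [h0, map_zero]
  have hVh : V.IsHomogeneous m := by
    rw [hV]
    exact hom.map _
  have hVc : map (starRingEnd ℂ) V = V := by
    have hc : (starRingEnd ℂ).comp (algebraMap ℝ ℂ) = algebraMap ℝ ℂ := by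
      apply RingHom.ext
      intro r
      simp
    rw [hV, MvPolynomial.map_map, hc]
  have hL := congrArg (map (algebraMap ℝ ℂ)) h
  rw [map_Lg, map_zero, ← hV] at hL
  obtain ⟨s, hs⟩ : ∃ s : ℝ, s = (p - 2) / 2 := ⟨_, rfl⟩
  have hs1 : -(1 / 2) < s := by rw [hs]; linarith
  have hs0 : s ≠ 0 := by
    rw [hs]
    intro h0
    apply hp2
    linarith
  have hs2 : (algebraMap ℝ ℂ) (p - 2) = 2 * (s : ℂ) := by
    rw [hs]
    simp
    ring
  rw [hs2] at hL
  have hT : T (s : ℂ) (N V) = 0 := by rw [T_N, hL, map_zero]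
  have hN0 : N V ≠ 0 := by
    intro h0
    apply hV0
    rw [← M_N V, h0, map_zero]
  obtain ⟨α, β, γ, hne, hiso, hdvd⟩ := thmA s hs1 hs0 m hm (N V) hN0 (hom_N hVh) hT
  have hd1 := map_dvd M hdvd
  rw [M_N] at hd1
  have hd2 := map_dvd (map (starRingEnd ℂ)) hd1
  rw [hVc, conj_M_lin] at hd2
  have hd3 := map_dvd N hd2
  rw [N_M] at hd3
  refine thmB s hs1 hs0 m (N V) hN0 (hom_N hVh) hT α β γ _ _ _ hiso ?_ ?_ hdvd hd3
  · have := congrArg (starRingEnd ℂ) hiso
    simp only [map_add, map_mul, map_pow, map_ofNat, map_zero] at this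
    linear_combination this
  · rw [Complex.mul_conj, Complex.mul_conj, mul_comm (starRingEnd ℂ γ), Complex.mul_conj]
    intro h0
    have h1 : Complex.normSq β + 2 * (Complex.normSq α + Complex.normSq γ) = 0 := by
      exact_mod_cast h0
    have ha := Complex.normSq_nonneg α
    have hb := Complex.normSq_nonneg β
    have hc := Complex.normSq_nonneg γ
    apply hne
    refine ⟨Complex.normSq_eq_zero.1 (by linarith), Complex.normSq_eq_zero.1 (by linarith),
      Complex.normSq_eq_zero.1 (by linarith)⟩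

end Pool.Agent.H750R2.PLap
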