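import Mathlib

set_option autoImplicit false

/-! Two forms of positive degree in three variables have a common nontrivial complex zero. -/

namespace Pool.Agent.H750R2.PLap

open MvPolynomial

private noncomputable abbrev R3 := MvPolynomial (Fin 3) ℂ

noncomputable def k1 : R3 →ₐ[ℂ] R3 := aeval ![0, X 1, X 2]
noncomputable def k2 : R3 →ₐ[ℂ] R3 := aeval ![0, 0, X 2]
noncomputable def k3 : R3 →ₐ[ℂ] R3 := aeval ![0, 0, 0]

theorem k21 (p : R3) : k2 (k1 p) = k2 p := by
  have : k2.comp k1 = k2 := by
    apply MvPolynomial.algHom_ext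
    intro i
    fin_cases i <;> simp [k1, k2]
  exact DFunLike.congr_fun this p

theorem k32 (p : R3) : k3 (k2 p) = k3 p := by
  have : k3.comp k2 = k3 := by
    apply MvPolynomial.algHom_ext
    intro i
    fin_cases i <;> simp [k2, k3]
  exact DFunLike.congr_fun this p

theorem height_k3 : (3 : ℕ∞) ≤ (RingHom.ker (k3 : R3 →+* R3)).height := by
  have p0 : (⊥ : Ideal R3).IsPrime := Ideal.isPrime_bot
  have p1 : (RingHom.ker (k1 : R3 →+* R3)).IsPrime := RingHom.ker_isPrime _
  have p2 : (RingHom.ker (k2 : R3 →+* R3)).IsPrime := RingHom.ker_isPrime _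
  have p3 : (RingHom.ker (k3 : R3 →+* R3)).IsPrime := RingHom.ker_isPrime _
  have h01 : (⊥ : Ideal R3) < RingHom.ker (k1 : R3 →+* R3) := by
    rw [bot_lt_iff_ne_bot]
    intro h
    have : (X 0 : R3) ∈ RingHom.ker (k1 : R3 →+* R3) := by
      rw [RingHom.mem_ker]; simp [k1]
    rw [h, Ideal.mem_bot] at this
    exact X_ne_zero _ this
  have h12 : RingHom.ker (k1 : R3 →+* R3) < RingHom.ker (k2 : R3 →+* R3) := by
    refine lt_of_le_of_ne ?_ ?_
    · intro p hp
      rw [RingHom.mem_ker] at hp ⊢
      have hp' : k1 p = 0 := hp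
      show k2 p = 0
      rw [← k21, hp', map_zero]
    · intro h
      have : (X 1 : R3) ∈ RingHom.ker (k2 : R3 →+* R3) := by
        rw [RingHom.mem_ker]; simp [k2]
      rw [← h, RingHom.mem_ker] at this
      have h' : k1 (X 1 : R3) = 0 := this
      simp [k1] at h'
  have h23 : RingHom.ker (k2 : R3 →+* R3) < RingHom.ker (k3 : R3 →+* R3) := by
    refine lt_of_le_of_ne ?_ ?_
    · intro p hp
      rw [RingHom.mem_ker] at hp ⊢
      have hp' : k2 p = 0 := hp
      show k3 p = 0
      rw [← k32, hp', map_zero]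
    · intro h
      have : (X 2 : R3) ∈ RingHom.ker (k3 : R3 →+* R3) := by
        rw [RingHom.mem_ker]; simp [k3]
      rw [← h, RingHom.mem_ker] at this
      have h' : k2 (X 2 : R3) = 0 := this
      simp [k2] at h'
  have e1 := Ideal.height_add_one_le_of_lt_of_isPrime h01
  have e2 := Ideal.height_add_one_le_of_lt_of_isPrime h12
  have e3 := Ideal.height_add_one_le_of_lt_of_isPrime h23
  calc (3 : ℕ∞) = 0 + 1 + 1 + 1 := by norm_num
    _ ≤ (⊥ : Ideal R3).height + 1 + 1 + 1 := by gcongr; exact zero_le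
    _ ≤ _ := by
        refine le_trans ?_ e3
        gcongr
        refine le_trans ?_ e2
        gcongr

theorem k3_eq (p : R3) : k3 p = C (eval (fun _ => (0 : ℂ)) p) := by
  have : k3 = (Algebra.ofId ℂ R3).comp (aeval (fun _ => (0 : ℂ))) := by
    apply MvPolynomial.algHom_ext
    intro i
    fin_cases i <;> simp [k3]
  rw [this]
  simp [Algebra.ofId_apply, MvPolynomial.algebraMap_eq]

theorem aeval_ev (x : Fin 3 → ℂ) (p : R3) : aeval x p = eval x p := rfl

theorem exists_common_zero (f g : R3) (hf : eval (fun _ => (0 : ℂ)) f = 0)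
    (hg : eval (fun _ => (0 : ℂ)) g = 0) :
    ∃ x : Fin 3 → ℂ, x ≠ 0 ∧ eval x f = 0 ∧ eval x g = 0 := by
  classical
  by_contra hcon
  push Not at hcon
  set I : Ideal R3 := Ideal.span ((({f, g} : Finset R3)) : Set R3) with hI
  have hzero : zeroLocus ℂ I = {0} := by
    ext x
    rw [mem_zeroLocus_iff, Set.mem_singleton_iff]
    constructor
    · intro h
      by_contra hx
      have h1 : eval x f = 0 := by
        have := h f (Ideal.subset_span (by simp))
        rwa [aeval_ev] at this
      have h2 : eval x g = 0 := by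
        have := h g (Ideal.subset_span (by simp))
        rwa [aeval_ev] at this
      exact hcon x hx h1 h2
    · rintro rfl p hp
      have hle : I ≤ RingHom.ker (aeval (0 : Fin 3 → ℂ) : R3 →ₐ[ℂ] ℂ) := by
        rw [hI, Ideal.span_le]
        intro q hq
        simp only [Finset.coe_insert, Finset.coe_singleton, Set.mem_insert_iff,
          Set.mem_singleton_iff] at hq
        rcases hq with rfl | rfl
        · show (aeval (0 : Fin 3 → ℂ)) q = 0
          rw [aeval_ev]; exact hf
        · show (aeval (0 : Fin 3 → ℂ)) q = 0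
          rw [aeval_ev]; exact hg
      exact hle hp
  have hrad : I.radical = RingHom.ker (k3 : R3 →+* R3) := by
    have hN := vanishingIdeal_zeroLocus_eq_radical (K := ℂ) I
    rw [← hN, hzero]
    ext p
    rw [mem_vanishingIdeal_singleton_iff, RingHom.mem_ker]
    have h3 : (k3 : R3 →+* R3) p = C (eval (fun _ => (0 : ℂ)) p) := k3_eq p
    rw [h3, C_eq_zero]
    rw [aeval_ev]
    rfl
  have p3 : (RingHom.ker (k3 : R3 →+* R3)).IsPrime := RingHom.ker_isPrime _
  have hmin : RingHom.ker (k3 : R3 →+* R3) ∈ I.minimalPrimes := by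
    refine ⟨⟨p3, ?_⟩, ?_⟩
    · rw [← hrad]; exact Ideal.le_radical
    · rintro q ⟨hq, hIq⟩ _
      rw [← hrad]
      exact hq.radical_le_iff.2 hIq
  have h1 := Ideal.height_le_card_of_mem_minimalPrimes_span_finset hmin
  have h2 := height_k3
  have h3 : (({f, g} : Finset R3).card : ℕ∞) ≤ 2 := by
    have := Finset.card_le_two (a := f) (b := g)
    exact_mod_cast this
  have h4 : (3 : ℕ∞) ≤ 2 := h2.trans (h1.trans h3)
  exact absurd h4 (by decide)

end Pool.Agent.H750R2.PLap
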