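import Pool.Agent.H750R2.PLap.Alpha
import Pool.Agent.H750R2.PLap.Zero

set_option autoImplicit false

/-! Theorem A: a homogeneous solution is divisible by an isotropic linear form. -/

namespace Pool.Agent.H750R2.PLap

open MvPolynomial

/-- linear form -/
noncomputable def lin (α β γ : ℂ) : P3 := C α * X 0 + C β * X 1 + C γ * X 2

/-- divisible by a nonzero isotropic linear form -/
def Good (U : P3) : Prop :=
  ∃ α β γ : ℂ, ¬(α = 0 ∧ β = 0 ∧ γ = 0) ∧ β ^ 2 + 4 * (α * γ) = 0 ∧ lin α β γ ∣ U

theorem sw_lin (α β γ : ℂ) : sw (lin α β γ) = lin γ β α := by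
  simp [sw, lin, MvPolynomial.algebraMap_eq]
  ring

theorem mv_lin (a α β γ : ℂ) :
    mv a (lin α β γ) = lin α (β - 2 * a * α) (γ + a * β - a ^ 2 * α) := by
  simp [mv, lin, MvPolynomial.algebraMap_eq]
  ring

theorem good_sw {U : P3} (h : Good (sw U)) : Good U := by
  obtain ⟨α, β, γ, h0, h1, h2⟩ := h
  refine ⟨γ, β, α, fun h => h0 ⟨h.2.2, h.2.1, h.1⟩, by linear_combination h1, ?_⟩
  have := map_dvd sw h2
  rwa [sw_lin, sw_sw] at this

theorem good_mv (a : ℂ) {U : P3} (h : Good (mv a U)) : Good U := by
  obtain ⟨α, β, γ, h0, h1, h2⟩ := h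
  have := map_dvd (mv (-a)) h2
  rw [mv_lin, mv_mv] at this
  refine ⟨_, _, _, ?_, ?_, this⟩
  · rintro ⟨ha, hb, hc⟩
    rw [ha] at hb hc
    have hb' : β = 0 := by linear_combination hb
    rw [hb'] at hc
    exact h0 ⟨ha, hb', by linear_combination hc⟩
  · linear_combination h1

theorem eval_mv (a : ℂ) (x : Fin 3 → ℂ) (U : P3) :
    eval x (mv a U) = eval ![x 0 - 2 * a * x 1 - a ^ 2 * x 2, x 1 + a * x 2, x 2] U := by
  have : (aeval x : P3 →ₐ[ℂ] ℂ).comp (mv a) =
      aeval ![x 0 - 2 * a * x 1 - a ^ 2 * x 2, x 1 + a * x 2, x 2] := by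
    apply MvPolynomial.algHom_ext
    intro i
    fin_cases i <;> simp [mv]
  exact DFunLike.congr_fun this U

theorem eval_sw (x : Fin 3 → ℂ) (U : P3) : eval x (sw U) = eval ![x 2, x 1, x 0] U := by
  have : (aeval x : P3 →ₐ[ℂ] ℂ).comp sw = aeval ![x 2, x 1, x 0] := by
    apply MvPolynomial.algHom_ext
    intro i
    fin_cases i <;> simp [sw]
  exact DFunLike.congr_fun this U

theorem X_dvd_of {U : P3} (i : Fin 3) (h : ∀ e ∈ U.support, e i ≠ 0) : X i ∣ U := by
  rw [U.as_sum]
  apply Finset.dvd_sum
  intro e he
  rw [X_dvd_monomial]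
  exact Or.inr (h e he)

theorem eval_axis (i : Fin 3) (c : ℂ) {W : P3} {d : ℕ} (h : W.IsHomogeneous d) :
    eval (Pi.single i c) W = coeff (Finsupp.single i d) W * c ^ d := by
  have hprod : ∀ e : Fin 3 →₀ ℕ, e = Finsupp.single i d →
      ∏ j, (Pi.single i c : Fin 3 → ℂ) j ^ e j = c ^ d := by
    intro e he
    rw [he, Finset.prod_eq_single i]
    · simp
    · intro j _ hj
      simp [Finsupp.single_eq_of_ne hj]
    · simp
  rw [eval_eq']
  by_cases hm : Finsupp.single i d ∈ W.support
  · rw [Finset.sum_eq_single (Finsupp.single i d)]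
    · rw [hprod _ rfl]
    · intro e he hne
      have hd := hom_deg h he
      have : ∃ j, j ≠ i ∧ e j ≠ 0 := by
        by_contra hcon
        push Not at hcon
        apply hne
        apply Finsupp.ext
        intro j
        have key : ∀ j, j ≠ i → e j = 0 := hcon
        by_cases hj : j = i
        · subst hj
          rw [Finsupp.single_eq_same]
          fin_cases j
          · have h1 := key 1 (by decide)
            have h2 := key 2 (by decide)
            simp only [Fin.zero_eta]
            omega
          · have h1 := key 0 (by decide)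
            have h2 := key 2 (by decide)
            simp only [Fin.mk_one]
            omega
          · have h1 := key 0 (by decide)
            have h2 := key 1 (by decide)
            simp only [Fin.reduceFinMk]
            omega
        · rw [key j hj, Finsupp.single_eq_of_ne hj]
      obtain ⟨j, hj, hej⟩ := this
      rw [Finset.prod_eq_zero (Finset.mem_univ j), mul_zero]
      rw [Pi.single_eq_of_ne hj, zero_pow hej]
    · intro h'; exact absurd hm h'
  · rw [notMem_support_iff.mp hm, zero_mul]
    apply Finset.sum_eq_zero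
    intro e he
    have hd := hom_deg h he
    have : ∃ j, j ≠ i ∧ e j ≠ 0 := by
      by_contra hcon
      push Not at hcon
      apply hm
      have key : ∀ j, j ≠ i → e j = 0 := hcon
      have : e = Finsupp.single i d := by
        apply Finsupp.ext
        intro j
        by_cases hj : j = i
        · subst hj
          rw [Finsupp.single_eq_same]
          fin_cases j
          · have h1 := key 1 (by decide)
            have h2 := key 2 (by decide)
            simp only [Fin.zero_eta]
            omega
          · have h1 := key 0 (by decide)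
            have h2 := key 2 (by decide)
            simp only [Fin.mk_one]
            omega
          · have h1 := key 0 (by decide)
            have h2 := key 1 (by decide)
            simp only [Fin.reduceFinMk]
            omega
        · rw [key j hj, Finsupp.single_eq_of_ne hj]
      rwa [← this]
    obtain ⟨j, hj, hej⟩ := this
    rw [Finset.prod_eq_zero (Finset.mem_univ j), mul_zero]
    rw [Pi.single_eq_of_ne hj, zero_pow hej]

theorem sw_eq (U : P3) : sw U = rename (Equiv.swap (0 : Fin 3) 2) U := by
  have : sw = rename (Equiv.swap (0 : Fin 3) 2) := by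
    apply MvPolynomial.algHom_ext
    intro i
    fin_cases i <;> simp [sw, Equiv.swap_apply_def]
  rw [this]

theorem mem_sw {U : P3} {e : Fin 3 →₀ ℕ} (he : e ∈ (sw U).support) :
    ∃ t ∈ U.support, e 0 = t 2 ∧ e 1 = t 1 ∧ e 2 = t 0 := by
  classical
  rw [sw_eq, support_rename_of_injective (Equiv.injective _), Finset.mem_image] at he
  obtain ⟨t, ht, rfl⟩ := he
  refine ⟨t, ht, ?_, ?_, ?_⟩
  · rw [Finsupp.mapDomain_equiv_apply]; simp
  · rw [Finsupp.mapDomain_equiv_apply]; simp [Equiv.swap_apply_def]
  · rw [Finsupp.mapDomain_equiv_apply]; simp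

theorem mem_sw' {U : P3} {e : Fin 3 →₀ ℕ} (he : e ∈ U.support) :
    ∃ t ∈ (sw U).support, e 0 = t 2 ∧ e 1 = t 1 ∧ e 2 = t 0 := by
  apply mem_sw
  rwa [sw_sw]

end Pool.Agent.H750R2.PLap
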