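import Pool.Agent.H750R2.PLap.ThmA

set_option autoImplicit false

/-! Theorem A: a homogeneous solution is divisible by an isotropic linear form. -/

namespace Pool.Agent.H750R2.PLap

open MvPolynomial

theorem good_X2 {U : P3} (h : X 2 ∣ U) : Good U := by
  refine ⟨0, 0, 1, by simp, by ring, ?_⟩
  simpa [lin] using h

theorem good_of_line (s : ℂ) (hs : s ≠ 0) (m k : ℕ) (hk : 1 ≤ k) (U : P3)
    (hom : U.IsHomogeneous m) (hU : T s U = 0) (hmin : ∀ e ∈ U.support, k ≤ e 0 + e 2)
    (hline : (∀ e ∈ U.support, e 0 + e 2 = k → e 0 = 0) ∨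
      (∀ e ∈ U.support, e 0 + e 2 = k → e 2 = 0))
    (hex : ∃ e ∈ U.support, e 0 + e 2 = k) : Good U := by
  rcases hline with h | h
  · exact good_X2 (X_dvd_of 2 (alpha s hs m k hk U hom hU hmin h hex))
  · apply good_sw
    apply good_X2
    apply X_dvd_of
    apply alpha s hs m k hk (sw U) (hom_sw hom) (by rw [T_sw, hU, map_zero])
    · intro e he
      obtain ⟨t, ht, h0, h1, h2⟩ := mem_sw he
      have := hmin t ht
      omega
    · intro e he hek
      obtain ⟨t, ht, h0, h1, h2⟩ := mem_sw he
      have := h t ht (by omega)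
      omega
    · obtain ⟨e, he, hek⟩ := hex
      obtain ⟨t, ht, h0, h1, h2⟩ := mem_sw' he
      exact ⟨t, ht, by omega⟩

/-- zero at a nonisotropic point -/
theorem case1 (s : ℝ) (hs : -(1 / 2) < s) (hs0 : s ≠ 0) (m : ℕ) (hm : 2 ≤ m) (U : P3)
    (hU0 : U ≠ 0) (hom : U.IsHomogeneous m) (hU : T (s : ℂ) U = 0) (c : ℂ) (hc : c ≠ 0)
    (hz : eval (Pi.single 1 c) U = 0) (hq : eval (Pi.single 1 c) (Qf U) = 0) : Good U := by
  have hsC : (s : ℂ) ≠ 0 := by exact_mod_cast hs0
  obtain ⟨e₁, he₁, hmin⟩ := Finset.exists_min_image U.support (fun e => e 0 + e 2)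
    (by rwa [support_nonempty])

  have hcm : coeff (Finsupp.single 1 m) U = 0 := by
    rw [eval_axis 1 c hom] at hz
    exact (mul_eq_zero.1 hz).resolve_right (pow_ne_zero _ hc)
  have hk : 1 ≤ e₁ 0 + e₁ 2 := by
    by_contra hcon
    have hd := hom_deg hom he₁
    have : e₁ = Finsupp.single 1 m := by
      apply ext3
      · simp; omega
      · simp; omega
      · simp; omega
    rw [this, mem_support_iff] at he₁
    exact he₁ hcm
  rcases Nat.lt_or_ge (e₁ 0 + e₁ 2) 2 with h2 | h2
  · have hk1 : e₁ 0 + e₁ 2 = 1 := by omega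
    have hom' : ∀ i, (pderiv i U).IsHomogeneous (m - 1) := fun i => hom.pderiv
    unfold Qf at hq
    simp only [map_add, map_mul, map_pow, map_ofNat] at hq
    rw [eval_axis 1 c (hom' 0), eval_axis 1 c (hom' 1), eval_axis 1 c (hom' 2), coeff_pderiv,
      coeff_pderiv, coeff_pderiv] at hq
    have hsum : (Finsupp.single 1 (m - 1) + Finsupp.single 1 1 : Fin 3 →₀ ℕ) =
        Finsupp.single 1 m := by
      rw [← Finsupp.single_add]
      congr 1
      omega
    rw [hsum, hcm] at hq
    simp only [zero_mul, ne_eq, OfNat.ofNat_ne_zero, not_false_eq_true, zero_pow, zero_add,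
      Fin.isValue] at hq
    have hprod : coeff (Finsupp.single 1 (m - 1) + Finsupp.single 0 1) U *
        coeff (Finsupp.single 1 (m - 1) + Finsupp.single 2 1) U = 0 := by
      have e1 : (Finsupp.single (1 : Fin 3) (m - 1)) 0 = 0 := by simp
      have e2 : (Finsupp.single (1 : Fin 3) (m - 1)) 2 = 0 := by simp
      rw [e1, e2] at hq
      have hc4 : 4 * (c ^ (m - 1) * c ^ (m - 1)) ≠ 0 :=
        mul_ne_zero (by norm_num) (mul_ne_zero (pow_ne_zero _ hc) (pow_ne_zero _ hc))
      apply mul_left_cancel₀ hc4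
      push_cast at hq
      linear_combination hq
    apply good_of_line s hsC m 1 le_rfl U hom hU (fun e he => by have := hmin e he; omega) _
      ⟨e₁, he₁, hk1⟩
    rcases mul_eq_zero.1 hprod with h | h
    · left
      intro e he hek
      by_contra hne
      have hd := hom_deg hom he
      have : e = Finsupp.single 1 (m - 1) + Finsupp.single 0 1 := by
        apply ext3
        · simp; omega
        · simp; omega
        · simp; omega
      rw [this, mem_support_iff] at he
      exact he h
    · right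
      intro e he hek
      by_contra hne
      have hd := hom_deg hom he
      have : e = Finsupp.single 1 (m - 1) + Finsupp.single 2 1 := by
        apply ext3
        · simp; omega
        · simp; omega
        · simp; omega
      rw [this, mem_support_iff] at he
      exact he h
  · apply good_of_line s hsC m (e₁ 0 + e₁ 2) hk U hom hU hmin _ ⟨e₁, he₁, rfl⟩
    exact (beta s hs hs0 m _ h2 U hom hU hmin).symm

/-- zero at an isotropic point -/
theorem case2 (s : ℝ) (hs : -(1 / 2) < s) (hs0 : s ≠ 0) (m : ℕ) (hm : 2 ≤ m) (U : P3)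
    (hU0 : U ≠ 0) (hom : U.IsHomogeneous m) (hU : T (s : ℂ) U = 0) (c : ℂ) (hc : c ≠ 0)
    (hz : eval (Pi.single 0 c) U = 0) (hq : eval (Pi.single 0 c) (Qf U) = 0) : Good U := by
  obtain ⟨e₁, he₁, hmin⟩ := Finset.exists_min_image U.support (fun e => e 1 + 2 * e 2)
    (by rwa [support_nonempty])

  have hcm : coeff (Finsupp.single 0 m) U = 0 := by
    rw [eval_axis 0 c hom] at hz
    exact (mul_eq_zero.1 hz).resolve_right (pow_ne_zero _ hc)
  have hc1 : coeff (Finsupp.single 0 (m - 1) + Finsupp.single 1 1) U = 0 := by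
    have hom' : ∀ i, (pderiv i U).IsHomogeneous (m - 1) := fun i => hom.pderiv
    unfold Qf at hq
    simp only [map_add, map_mul, map_pow, map_ofNat] at hq
    rw [eval_axis 0 c (hom' 0), eval_axis 0 c (hom' 1), coeff_pderiv,
      coeff_pderiv] at hq
    have hsum : (Finsupp.single 0 (m - 1) + Finsupp.single 0 1 : Fin 3 →₀ ℕ) =
        Finsupp.single 0 m := by
      rw [← Finsupp.single_add]
      congr 1
      omega
    rw [hsum, hcm] at hq
    have e1 : (Finsupp.single (0 : Fin 3) (m - 1)) 1 = 0 := by simp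
    rw [e1] at hq
    simp only [zero_mul, mul_zero, add_zero, Nat.cast_zero, zero_add, mul_one] at hq
    exact (mul_eq_zero.1 (pow_eq_zero_iff (two_ne_zero)|>.1 hq)).resolve_right (pow_ne_zero _ hc)
  have h2 : 2 ≤ e₁ 1 + 2 * e₁ 2 := by
    by_contra hcon
    have hd := hom_deg hom he₁
    rcases Nat.eq_zero_or_pos (e₁ 1) with h | h
    · have : e₁ = Finsupp.single 0 m := by
        apply ext3
        · simp; omega
        · simp; omega
        · simp; omega
      rw [this, mem_support_iff] at he₁
      exact he₁ hcm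
    · have : e₁ = Finsupp.single 0 (m - 1) + Finsupp.single 1 1 := by
        apply ext3
        · simp; omega
        · simp; omega
        · simp; omega
      rw [this, mem_support_iff] at he₁
      exact he₁ hc1
  rcases Nat.lt_or_ge m (e₁ 1 + 2 * e₁ 2) with h | h
  · apply good_X2
    apply X_dvd_of
    intro e he he2
    have := hmin e he
    have hd := hom_deg hom he
    omega
  · exact (gamma s hs hs0 m _ h2 h U hom hU hmin ⟨e₁, he₁, rfl⟩).elim

end Pool.Agent.H750R2.PLap
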