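import Pool.Agent.H750R2.PLap.ThmA2

set_option autoImplicit false

/-! Theorems A and B. -/

namespace Pool.Agent.H750R2.PLap

open MvPolynomial

theorem case3 (s : ℝ) (hs : -(1 / 2) < s) (hs0 : s ≠ 0) (m : ℕ) (hm : 2 ≤ m) (U : P3)
    (hU0 : U ≠ 0) (hom : U.IsHomogeneous m) (hU : T (s : ℂ) U = 0) (x : Fin 3 → ℂ)
    (hx : x ≠ 0) (hx2 : x 2 = 0)
    (hz : eval x U = 0) (hq : eval x (Qf U) = 0) : Good U := by
  by_cases h1 : x 1 = 0
  · have hxe : x = Pi.single 0 (x 0) := by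
      funext i
      fin_cases i
      · simp
      · simpa using h1
      · simpa using hx2
    have h0 : x 0 ≠ 0 := by
      intro h
      apply hx
      rw [hxe, h]
      simp
    rw [hxe] at hz hq
    exact case2 s hs hs0 m hm U hU0 hom hU (x 0) h0 hz hq
  · apply good_mv (-(x 0) / (2 * x 1) * (-1) * (-1))
    obtain ⟨a, ha⟩ : ∃ a, a = -(x 0) / (2 * x 1) * (-1) * (-1) := ⟨_, rfl⟩
    rw [← ha]
    have hy : ![(Pi.single 1 (x 1) : Fin 3 → ℂ) 0 - 2 * a * (Pi.single 1 (x 1) : Fin 3 → ℂ) 1 -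
        a ^ 2 * (Pi.single 1 (x 1) : Fin 3 → ℂ) 2, (Pi.single 1 (x 1) : Fin 3 → ℂ) 1 +
        a * (Pi.single 1 (x 1) : Fin 3 → ℂ) 2, (Pi.single 1 (x 1) : Fin 3 → ℂ) 2] = x := by
      funext i
      fin_cases i
      · simp [ha]
        field_simp
      · simp
      · simp [hx2]
    refine case1 s hs hs0 m hm (mv a U) (mv_inj a hU0) (hom_mv a hom)
      (by rw [T_mv, hU, map_zero]) (x 1) h1 ?_ ?_
    · rw [eval_mv, hy]; exact hz
    · rw [Qf_mv, eval_mv, hy]; exact hq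

/-- A homogeneous solution of degree at least 2 is divisible by an isotropic linear form. -/
theorem thmA (s : ℝ) (hs : -(1 / 2) < s) (hs0 : s ≠ 0) (m : ℕ) (hm : 2 ≤ m) (U : P3)
    (hU0 : U ≠ 0) (hom : U.IsHomogeneous m) (hU : T (s : ℂ) U = 0) : Good U := by
  have hhom0 : ∀ {W : P3} {d : ℕ}, d ≠ 0 → W.IsHomogeneous d → eval (fun _ => (0 : ℂ)) W = 0 := by
    intro W d hd hW
    have h1 := eval_axis 0 0 hW
    rw [zero_pow hd, mul_zero, Pi.single_zero] at h1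
    exact h1
  have hQ : (Qf U).IsHomogeneous ((m - 1) * 2) := by
    unfold Qf
    have h0 : (pderiv 0 U).IsHomogeneous (m - 1) := hom.pderiv
    have h1 : (pderiv 1 U).IsHomogeneous (m - 1) := hom.pderiv
    have h2 : (pderiv 2 U).IsHomogeneous (m - 1) := hom.pderiv
    apply (h1.pow 2).add
    have h4 : (4 : P3).IsHomogeneous 0 := by
      have := isHomogeneous_C (Fin 3) (4 : ℂ)
      rwa [map_ofNat] at this
    have := h4.mul (h0.mul h2)
    rwa [zero_add, ← mul_two] at this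
  obtain ⟨x, hx, hz, hq⟩ := exists_common_zero U (Qf U) (hhom0 (by omega) hom)
    (hhom0 (by omega) hQ)
  by_cases hx2 : x 2 = 0
  · exact case3 s hs hs0 m hm U hU0 hom hU x hx hx2 hz hq
  · -- move to `(0, y, x₂)` and swap
    obtain ⟨r, hr⟩ : ∃ r : ℂ, r ^ 2 = x 1 ^ 2 + x 0 * x 2 :=
      IsAlgClosed.exists_pow_nat_eq _ (by norm_num)
    obtain ⟨a, ha⟩ : ∃ a : ℂ, a = (x 1 + r) / x 2 := ⟨_, rfl⟩
    apply good_mv a
    apply good_sw
    obtain ⟨y, hy⟩ : ∃ y : Fin 3 → ℂ, y = ![x 2, x 1 - a * x 2, 0] := ⟨_, rfl⟩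
    have key : ∀ W : P3, eval y (sw (mv a W)) = eval x W := by
      intro W
      rw [eval_sw, eval_mv]
      congr 1
      congr 1
      funext i
      fin_cases i
      · simp [hy, ha]
        field_simp
        linear_combination hr
      · simp [hy]
      · simp [hy]
    refine case3 s hs hs0 m hm (sw (mv a U)) (sw_inj (mv_inj a hU0)) (hom_sw (hom_mv a hom))
      (by rw [T_sw, T_mv, hU, map_zero, map_zero]) y ?_ (by simp [hy]) ?_ ?_
    · intro h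
      apply hx2
      have := congrFun h 0
      simpa [hy] using this
    · rw [key]; exact hz
    · rw [Qf_sw, Qf_mv, key]; exact hq

theorem ne_of_X_dvd {U : P3} {i : Fin 3} (h : X i ∣ U) : ∀ e ∈ U.support, e i ≠ 0 := by
  classical
  obtain ⟨W, hW⟩ := h
  intro e he h0
  rw [hW, mem_support_iff, coeff_X_mul'] at he
  apply he
  rw [if_neg]
  simp [h0]

theorem stage0 (s : ℝ) (hs : -(1 / 2) < s) (hs0 : s ≠ 0) (m : ℕ) (U : P3)
    (hU0 : U ≠ 0) (hom : U.IsHomogeneous m) (hU : T (s : ℂ) U = 0)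
    (h0 : X 0 ∣ U) (h2 : X 2 ∣ U) : False := by
  have h0' := ne_of_X_dvd h0
  have h2' := ne_of_X_dvd h2
  obtain ⟨e₁, he₁, hmin⟩ := Finset.exists_min_image U.support (fun e => e 0 + e 2)
    (by rwa [support_nonempty])
  have a0 := h0' e₁ he₁
  have a2 := h2' e₁ he₁
  rcases beta s hs hs0 m (e₁ 0 + e₁ 2) (by omega) U hom hU hmin with h | h
  · exact a2 (h e₁ he₁ rfl)
  · exact a0 (h e₁ he₁ rfl)

theorem stage1 (s : ℝ) (hs : -(1 / 2) < s) (hs0 : s ≠ 0) (m : ℕ) (U : P3)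
    (hU0 : U ≠ 0) (hom : U.IsHomogeneous m) (hU : T (s : ℂ) U = 0) (α α₂ β₂ γ₂ : ℂ)
    (hα : α ≠ 0) (hγ : γ₂ ≠ 0) (hiso : β₂ ^ 2 + 4 * (α₂ * γ₂) = 0)
    (h1 : lin α 0 0 ∣ U) (h2 : lin α₂ β₂ γ₂ ∣ U) : False := by
  have h1' := map_dvd sw h1
  have h2' := map_dvd sw h2
  rw [sw_lin] at h1' h2'
  obtain ⟨a, ha⟩ : ∃ a : ℂ, a = β₂ / (2 * γ₂) := ⟨_, rfl⟩
  have h1'' := map_dvd (mv a) h1'
  have h2'' := map_dvd (mv a) h2'
  rw [mv_lin] at h1'' h2''
  have e1 : β₂ - 2 * a * γ₂ = 0 := by rw [ha]; field_simp; ring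
  have e2 : α₂ + a * β₂ - a ^ 2 * γ₂ = 0 := by
    rw [ha]; field_simp; linear_combination hiso
  rw [e1, e2] at h2''
  simp only [mul_zero, sub_zero, add_zero] at h1''
  have hX2 : (X 2 : P3) ∣ mv a (sw U) := by
    refine dvd_trans ?_ h1''
    refine ⟨C α, ?_⟩
    simp [lin, mul_comm]
  have hX2' : (X 2 : P3) ∣ mv a (sw U) := by
    have : lin 0 0 α = C α * X 2 := by simp [lin]
    rw [this] at h1''
    exact dvd_trans (Dvd.intro_left _ rfl) h1''
  have hX0 : (X 0 : P3) ∣ mv a (sw U) := by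
    have : lin γ₂ 0 0 = C γ₂ * X 0 := by simp [lin]
    rw [this] at h2''
    exact dvd_trans (Dvd.intro_left _ rfl) h2''
  exact stage0 s hs hs0 m _ (mv_inj a (sw_inj hU0)) (hom_mv a (hom_sw hom))
    (by rw [T_mv, T_sw, hU, map_zero, map_zero]) hX0 hX2'

/-- A nonzero homogeneous solution is not divisible by two independent isotropic forms. -/
theorem thmB (s : ℝ) (hs : -(1 / 2) < s) (hs0 : s ≠ 0) (m : ℕ) (U : P3)
    (hU0 : U ≠ 0) (hom : U.IsHomogeneous m) (hU : T (s : ℂ) U = 0) (α₁ β₁ γ₁ α₂ β₂ γ₂ : ℂ)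
    (hi1 : β₁ ^ 2 + 4 * (α₁ * γ₁) = 0) (hi2 : β₂ ^ 2 + 4 * (α₂ * γ₂) = 0)
    (hB : β₁ * β₂ + 2 * (α₁ * γ₂ + α₂ * γ₁) ≠ 0)
    (h1 : lin α₁ β₁ γ₁ ∣ U) (h2 : lin α₂ β₂ γ₂ ∣ U) : False := by
  by_cases hα : α₁ = 0
  · have hβ : β₁ = 0 := by
      rw [hα] at hi1
      have : β₁ ^ 2 = 0 := by linear_combination hi1
      exact pow_eq_zero_iff (two_ne_zero) |>.1 this
    rw [hα, hβ] at hB
    have hγ : γ₁ ≠ 0 := by
      intro h; apply hB; rw [h]; ring
    have hα₂ : α₂ ≠ 0 := by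
      intro h; apply hB; rw [h]; ring
    have h1' := map_dvd sw h1
    have h2' := map_dvd sw h2
    rw [sw_lin] at h1' h2'
    rw [hα, hβ] at h1'
    exact stage1 s hs hs0 m (sw U) (sw_inj hU0) (hom_sw hom) (by rw [T_sw, hU, map_zero])
      γ₁ γ₂ β₂ α₂ hγ hα₂ (by linear_combination hi2) h1' h2'
  · obtain ⟨a, ha⟩ : ∃ a : ℂ, a = β₁ / (2 * α₁) := ⟨_, rfl⟩
    have h1' := map_dvd (mv a) h1
    have h2' := map_dvd (mv a) h2
    rw [mv_lin] at h1' h2'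
    have e1 : β₁ - 2 * a * α₁ = 0 := by rw [ha]; field_simp; ring
    have e2 : γ₁ + a * β₁ - a ^ 2 * α₁ = 0 := by
      rw [ha]; field_simp; linear_combination hi1
    rw [e1, e2] at h1'
    refine stage1 s hs hs0 m (mv a U) (mv_inj a hU0) (hom_mv a hom) (by rw [T_mv, hU, map_zero])
      α₁ _ _ _ hα ?_ ?_ h1' h2'
    · intro h
      apply hB
      have e3 : a * (2 * α₁) = β₁ := by rw [ha]; field_simp
      linear_combination 2 * α₁ * h - (β₂ - a * α₂) * e3 + 2 * α₂ * e2 - α₂ * a * e1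
    · linear_combination hi2

end Pool.Agent.H750R2.PLap
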