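import Pool.Agent.H750R2.PLap.RealCase

set_option autoImplicit false

/-! The top homogeneous part of a polynomial solution is a solution. -/

namespace Pool.Agent.H750R2.PLap

open MvPolynomial

/-- evaluate on the ray through `x` -/
noncomputable def ray (x : Fin 3 → ℝ) : MvPolynomial (Fin 3) ℝ →ₐ[ℝ] Polynomial ℝ :=
  aeval (fun i => Polynomial.X * Polynomial.C (x i))

theorem ray_hom (x : Fin 3 → ℝ) {W : MvPolynomial (Fin 3) ℝ} {d : ℕ} (h : W.IsHomogeneous d) :
    ray x W = Polynomial.C (eval x W) * Polynomial.X ^ d := by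
  have h1 : ∀ e ∈ W.support, ray x (monomial e (coeff e W)) =
      Polynomial.C (eval x (monomial e (coeff e W))) * Polynomial.X ^ d := by
    intro e he
    have hd := h (mem_support_iff.mp he)
    rw [Finsupp.weight_apply, Finsupp.sum_fintype _ _ (by simp)] at hd
    unfold ray
    rw [aeval_monomial, eval_monomial, Polynomial.algebraMap_eq,
      Finsupp.prod_fintype _ _ (by simp), Finsupp.prod_fintype _ _ (by simp)]
    simp only [mul_pow]
    rw [Finset.prod_mul_distrib, Finset.prod_pow_eq_pow_sum, ← hd]
    simp only [Pi.one_apply, smul_eq_mul, mul_one, map_mul, map_prod, map_pow]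
    ring
  conv_lhs => rw [W.as_sum]
  conv_rhs => rw [W.as_sum]
  rw [map_sum, map_sum, map_sum, Finset.sum_mul]
  apply Finset.sum_congr rfl
  intro e he
  rw [h1 e he]

theorem ray_coeff (x : Fin 3 → ℝ) (W : MvPolynomial (Fin 3) ℝ) (d : ℕ)
    (h : W.totalDegree ≤ d) : (ray x W).natDegree ≤ d ∧
      (ray x W).coeff d = eval x (homogeneousComponent d W) := by
  have hsum : W = ∑ i ∈ Finset.range (d + 1), homogeneousComponent i W := by
    conv_lhs => rw [← sum_homogeneousComponent W]
    apply Finset.sum_subset
    · intro i hi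
      rw [Finset.mem_range] at hi ⊢
      omega
    · intro i _ hi
      rw [Finset.mem_range, not_lt] at hi
      exact homogeneousComponent_eq_zero _ _ (by omega)
  have hray : ray x W = ∑ i ∈ Finset.range (d + 1),
      Polynomial.C (eval x (homogeneousComponent i W)) * Polynomial.X ^ i := by
    conv_lhs => rw [hsum]
    rw [map_sum]
    apply Finset.sum_congr rfl
    intro i _
    exact ray_hom x (homogeneousComponent_isHomogeneous i W)
  constructor
  · rw [hray]
    apply Polynomial.natDegree_sum_le_of_forall_le
    intro i hi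
    rw [Finset.mem_range] at hi
    exact (Polynomial.natDegree_C_mul_X_pow_le _ _).trans (by omega)
  · rw [hray, Polynomial.finsetSum_coeff]
    simp only [Polynomial.coeff_C_mul, Polynomial.coeff_X_pow]
    rw [Finset.sum_eq_single d]
    · simp
    · intro i _ hi
      rw [if_neg (Ne.symm hi), mul_zero]
    · intro h'
      exact absurd (Finset.mem_range.2 (by omega)) h'

theorem hc_pderiv (i : Fin 3) (d : ℕ) (W : MvPolynomial (Fin 3) ℝ) :
    homogeneousComponent d (pderiv i W) = pderiv i (homogeneousComponent (d + 1) W) := by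
  apply MvPolynomial.ext
  intro e
  rw [coeff_homogeneousComponent, coeff_pderiv, coeff_pderiv, coeff_homogeneousComponent]
  have : Finsupp.degree (e + Finsupp.single i 1) = Finsupp.degree e + 1 := by
    rw [map_add, Finsupp.degree_single]
  rw [this]
  by_cases h : Finsupp.degree e = d
  · simp [h]
  · simp [h]

theorem td_pderiv (i : Fin 3) (W : MvPolynomial (Fin 3) ℝ) (d : ℕ) (h : W.totalDegree ≤ d + 1) :
    (pderiv i W).totalDegree ≤ d := by
  unfold totalDegree
  apply Finset.sup_le
  intro e he
  rw [mem_support_iff, coeff_pderiv] at he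
  have h1 : e + Finsupp.single i 1 ∈ W.support := by
    rw [mem_support_iff]
    exact left_ne_zero_of_mul he
  have h2 := (le_totalDegree h1).trans h
  have h3 : (e + Finsupp.single i 1).sum (fun _ n => n) = (e.sum fun _ n => n) + 1 := by
    rw [Finsupp.sum_add_index' (by simp) (by intros; rfl)]
    simp
  omega

/-- The top homogeneous part of a solution is a solution. -/
theorem top_part (s₂ : ℝ) (k : ℕ) (u : MvPolynomial (Fin 3) ℝ) (hdeg : u.totalDegree ≤ k + 2)
    (h : Lg s₂ u = 0) : Lg s₂ (homogeneousComponent (k + 2) u) = 0 := by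
  apply MvPolynomial.funext
  intro x
  have h1 : ∀ i, (ray x (pderiv i u)).natDegree ≤ k + 1 ∧
      (ray x (pderiv i u)).coeff (k + 1) =
        eval x (pderiv i (homogeneousComponent (k + 2) u)) := by
    intro i
    have := ray_coeff x (pderiv i u) (k + 1) (td_pderiv i u (k + 1) hdeg)
    rwa [hc_pderiv] at this
  have h2 : ∀ i j, (ray x (pderiv i (pderiv j u))).natDegree ≤ k ∧
      (ray x (pderiv i (pderiv j u))).coeff k =
        eval x (pderiv i (pderiv j (homogeneousComponent (k + 2) u))) := by
    intro i j
    have := ray_coeff x (pderiv i (pderiv j u)) k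
      (td_pderiv i _ k (td_pderiv j u (k + 1) hdeg))
    rwa [hc_pderiv, hc_pderiv] at this
  have h3 : ∀ i j a b, (ray x (pderiv i u) * ray x (pderiv j u) *
      ray x (pderiv a (pderiv b u))).coeff (k + 1 + (k + 1) + k) =
      eval x (pderiv i (homogeneousComponent (k + 2) u)) *
        eval x (pderiv j (homogeneousComponent (k + 2) u)) *
        eval x (pderiv a (pderiv b (homogeneousComponent (k + 2) u))) := by
    intro i j a b
    rw [Polynomial.coeff_mul_add_eq_of_natDegree_le
      (Polynomial.natDegree_mul_le_of_le (h1 i).1 (h1 j).1) (h2 a b).1,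
      Polynomial.coeff_mul_add_eq_of_natDegree_le (h1 i).1 (h1 j).1, (h1 i).2, (h1 j).2,
      (h2 a b).2]
  have hray : ray x (C s₂) = Polynomial.C s₂ := by
    unfold ray
    rw [aeval_C, Polynomial.algebraMap_eq]
  have h4 := congrArg (fun W => (ray x W).coeff (k + 1 + (k + 1) + k)) h
  simp only [Lg, map_add, map_mul, map_sum, map_pow, map_zero, Polynomial.coeff_zero, hray,
    sq, Finset.sum_mul_sum, Polynomial.coeff_add, Polynomial.coeff_C_mul,
    Polynomial.finsetSum_coeff, h3] at h4
  simp only [Lg, map_add, map_mul, map_sum, map_pow, map_zero, eval_C, sq, Finset.sum_mul_sum]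
  exact h4

end Pool.Agent.H750R2.PLap
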